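import Pool.Agent.Lib.MP_d47134_co.Reg.Fin
import Pool.Agent.Lib.MP_d47134_co.Conv

/-!
# Translation of the theorem on multigraphs to `ends : E → Sym2 V`
-/

set_option autoImplicit false
set_option linter.unusedSectionVars false

namespace Pool.Agent.Lib.MP_d47134_co

open Finset

variable {V E : Type} [Fintype V] [DecidableEq V] [Fintype E] [DecidableEq E]

lemma conv_ov {ends : E → Sym2 V} {a b : E → V} (hends : ∀ e, ends e = s(a e, b e))
    (hne : ∀ e, a e ≠ b e) :
    Nat.card {v : V // Odd (Nat.card {e : E // v ∈ ends e})} = ov a b univ := by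
  classical
  rw [Nat.card_eq_fintype_card, Fintype.card_subtype]
  unfold ov
  congr 1
  ext v
  simp only [mem_filter, mem_univ, true_and, conv_deg' hends hne]

end Pool.Agent.Lib.MP_d47134_co
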