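import Mathlib

/-!
# The minimax theorem for finite games
-/

set_option autoImplicit false

namespace Pool.Agent.Lib.MP_d47134_co

open Finset

/-- The minimax theorem for finite games. -/
theorem minimax (I J : Type) [Fintype I] [Fintype J] (S : Finset I) (C : Finset J)
    (a : I → J → ℝ) (e : ℝ) (hS : S.Nonempty) (hC : C.Nonempty) :
    (∃ τ : I → ℝ, (∀ i, 0 ≤ τ i) ∧ ∑ i, τ i = 1 ∧ (∀ i, τ i ≠ 0 → i ∈ S) ∧
      ∀ j ∈ C, ∑ i, τ i * a i j ≤ e) ∨
    (∃ l : J → ℝ, (∀ j, 0 ≤ l j) ∧ ∑ j, l j = 1 ∧ (∀ j, l j ≠ 0 → j ∈ C) ∧
      ∀ i ∈ S, e ≤ ∑ j, l j * a i j) := by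
  classical
  set L : (I → ℝ) →ₗ[ℝ] (J → ℝ) :=
    { toFun := fun τ j => ∑ i, τ i * a i j
      map_add' := by
        intro c c'
        funext v
        simp only [Pi.add_apply, add_mul, Finset.sum_add_distrib]
      map_smul' := by
        intro b c
        funext v
        simp only [Pi.smul_apply, smul_eq_mul, RingHom.id_apply, Finset.mul_sum, mul_assoc] }
    with hL
  have hLapp : ∀ (τ : I → ℝ) (j : J), L τ j = ∑ i, τ i * a i j := fun c v => rfl
  set K0 : Set (I → ℝ) := stdSimplex ℝ I ∩ {τ | ∀ i, i ∉ S → τ i = 0} with hK0
  have hK0c : IsCompact K0 := by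
    refine (isCompact_stdSimplex ℝ I).inter_right ?_
    simp only [Set.ofPred_forall]
    exact isClosed_iInter fun i => isClosed_iInter fun _ =>
      isClosed_eq (continuous_apply i) continuous_const
  have hK0conv : Convex ℝ K0 := by
    refine (convex_stdSimplex ℝ I).inter ?_
    intro x hx y hy b c _ _ _ i hi
    show b * x i + c * y i = 0
    rw [hx i hi, hy i hi, mul_zero, mul_zero, add_zero]
  set P : Set (J → ℝ) := L '' K0 with hP
  set Q : Set (J → ℝ) := {y | ∀ j, j ∈ C → y j ≤ e} with hQ
  have hPc : IsCompact P := hK0c.image (LinearMap.continuous_of_finiteDimensional L)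
  have hPconv : Convex ℝ P := hK0conv.linear_image L
  have hQclosed : IsClosed Q := by
    rw [hQ]
    simp only [Set.ofPred_forall]
    exact isClosed_iInter fun j => isClosed_iInter fun _ =>
      isClosed_le (continuous_apply j) continuous_const
  have hQconv : Convex ℝ Q := by
    intro x hx y hy b c hb hc hbc j hj
    have h1 := mul_le_mul_of_nonneg_left (hx j hj) hb
    have h2 := mul_le_mul_of_nonneg_left (hy j hj) hc
    have h3 : b * e + c * e = e := by rw [← add_mul, hbc, one_mul]
    show b * x j + c * y j ≤ e
    linarith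
  by_cases hdisj : Disjoint P Q
  · right
    obtain ⟨f, u, v, hf1, huv, hf2⟩ :=
      geometric_hahn_banach_compact_closed hPconv hPc hQconv hQclosed hdisj
    set w : J → ℝ := fun x => f (Pi.single x 1) with hw
    have hfw : ∀ y : J → ℝ, f y = ∑ x, y x * w x := by
      intro y
      have h1 : y = ∑ x, y x • (Pi.single x (1 : ℝ) : J → ℝ) := by
        funext z
        simp [Finset.sum_apply, Pi.single_apply]
      conv_lhs => rw [h1]
      rw [map_sum]
      refine Finset.sum_congr rfl fun x _ => ?_
      rw [map_smul, smul_eq_mul]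
    -- the value at the corner
    set B : ℝ := ∑ z, (if z ∈ C then e else 0) * w z with hB
    have hmove : ∀ x (t : ℝ), (x ∈ C → t ≤ 0) → v < B + t * w x := by
      intro x t ht
      have h2 : (fun z => (if z ∈ C then e else 0) + (if z = x then t else 0)) ∈ Q := by
        intro z hz
        show (if z ∈ C then e else 0) + (if z = x then t else 0) ≤ e
        rw [if_pos hz]
        split_ifs with h
        · have := ht (h ▸ hz)
          linarith
        · linarith
      have h3 := hf2 _ h2
      rw [hfw] at h3
      simp only [add_mul, Finset.sum_add_distrib, ite_mul, zero_mul, Finset.sum_ite_eq',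
        Finset.mem_univ, if_true] at h3
      rw [hB]
      simp only [ite_mul, zero_mul]
      exact h3
    have hBv : v < B := by
      obtain ⟨x, hx⟩ := hC
      have := hmove x 0 (fun _ => le_rfl)
      simpa using this
    have hwnp : ∀ x ∈ C, w x ≤ 0 := by
      intro x hx
      by_contra hneg
      push Not at hneg
      have h4 := hmove x (-((B - v) / w x)) (fun _ => by
        have : 0 ≤ (B - v) / w x := div_nonneg (by linarith) hneg.le
        linarith)
      have h5 : -((B - v) / w x) * w x = -(B - v) := by
        rw [neg_mul, div_mul_cancel₀ _ hneg.ne']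
      rw [h5] at h4
      linarith
    have hw0 : ∀ x, x ∉ C → w x = 0 := by
      intro x hx
      by_contra hne
      have h4 := hmove x (-((B - v) / w x)) (fun h => absurd h hx)
      have h5 : -((B - v) / w x) * w x = -(B - v) := by
        rw [neg_mul, div_mul_cancel₀ _ hne]
      rw [h5] at h4
      linarith
    have hwle : ∀ x, w x ≤ 0 := by
      intro x
      by_cases hx : x ∈ C
      · exact hwnp x hx
      · exact (hw0 x hx).le
    have hBe : B = e * ∑ z, w z := by
      rw [hB, Finset.mul_sum]
      refine Finset.sum_congr rfl fun z _ => ?_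
      split_ifs with h
      · rfl
      · rw [hw0 z h]; ring
    have hrow : ∀ i ∈ S, ∑ j, a i j * w j < B := by
      intro i hi
      have h1 : (fun j => a i j) ∈ P := by
        refine ⟨Pi.single i 1, ⟨single_mem_stdSimplex ℝ _, ?_⟩, ?_⟩
        · intro k hk
          rw [Pi.single_eq_of_ne]
          rintro rfl
          exact hk hi
        · funext j
          rw [hLapp, Finset.sum_eq_single i]
          · simp
          · intro k _ hk
            rw [Pi.single_eq_of_ne hk, zero_mul]
          · intro hc
            exact absurd (Finset.mem_univ _) hc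
      have h2 := hf1 _ h1
      rw [hfw] at h2
      linarith
    set W : ℝ := ∑ z, -w z with hW
    have hWsum : W = -∑ z, w z := by rw [hW, Finset.sum_neg_distrib]
    have hW0 : 0 ≤ W := Finset.sum_nonneg fun z _ => by
      have := hwle z
      linarith
    have hWpos : 0 < W := by
      rcases hW0.lt_or_eq with h | h
      · exact h
      · exfalso
        have hz : ∀ z, w z = 0 := by
          intro z
          have h1 := (Finset.sum_eq_zero_iff_of_nonneg (fun z _ => by
            have := hwle z
            show 0 ≤ -w z
            linarith)).1 (h.symm : ∑ z, -w z = 0) z (Finset.mem_univ z)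
          linarith
        obtain ⟨i, hi⟩ := hS
        have h1 := hrow i hi
        rw [hBe] at h1
        simp [hz] at h1
    refine ⟨fun j => -w j / W, fun j => div_nonneg (by have := hwle j; linarith) hW0, ?_, ?_, ?_⟩
    · rw [← Finset.sum_div, ← hW, div_self hWpos.ne']
    · intro j hj
      by_contra hjC
      exact hj (by
        show -w j / W = 0
        rw [hw0 j hjC]; simp)
    · intro i hi
      have h1 := hrow i hi
      have h2 : ∑ j, -w j / W * a i j = -(∑ j, a i j * w j) / W := by
        rw [← Finset.sum_neg_distrib, Finset.sum_div]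
        refine Finset.sum_congr rfl fun j _ => ?_
        ring
      rw [h2, le_div_iff₀ hWpos]
      rw [hBe] at h1
      rw [hWsum]
      linarith
  · left
    rw [Set.not_disjoint_iff] at hdisj
    obtain ⟨y, ⟨τ, hτ, rfl⟩, hy⟩ := hdisj
    refine ⟨τ, hτ.1.1, hτ.1.2, ?_, fun j hj => hy j hj⟩
    intro i hi
    by_contra h
    exact hi (hτ.2 i h)

end Pool.Agent.Lib.MP_d47134_co
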