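import Pool.Agent.Lib.MP_d47134_co.Reg.Primal
import Pool.Agent.Lib.MP_d47134_co.Reg.Minimax

/-!
# Laminar packings of odd cuts
-/

set_option autoImplicit false
set_option linter.unusedSectionVars false

namespace Pool.Agent.Lib.MP_d47134_co

open Finset

variable {V E : Type} [Fintype V] [DecidableEq V] [Fintype E] [DecidableEq E]

/-- indicator of `e` in the cut of `X` -/
def ix (a b : E → V) (e : E) (X : Finset V) : ℝ := if (a e ∈ X ↔ b e ∈ X) then 0 else 1

lemma ix_nn (a b : E → V) (e : E) (X : Finset V) : 0 ≤ ix a b e X := by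
  unfold ix; split_ifs <;> norm_num

lemma sum_ix (a b : E → V) (M : Finset E) (X : Finset V) (x : E → ℝ) :
    ∑ e ∈ cut a b M X, x e = ∑ e ∈ M, x e * ix a b e X := by
  rw [cut, sum_filter]
  refine sum_congr rfl fun e _ => ?_
  unfold ix
  by_cases h1 : a e ∈ X ↔ b e ∈ X
  · rw [if_neg (not_not.2 h1), if_pos h1, mul_zero]
  · rw [if_pos h1, if_neg h1, mul_one]

/-- A fractional packing of odd cuts outside `K`. -/
structure Pack (a b : E → V) (K : Finset E) (r0 : V) (y : Finset V → ℝ) : Prop where
  nn : ∀ X, 0 ≤ y X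
  supp : ∀ X, y X ≠ 0 → Odd (cut a b univ X).card ∧ r0 ∉ X
  load : ∀ e, e ∉ K → ∑ X, y X * ix a b e X ≤ 1

theorem exists_pack {a b : E → V} {K : Finset E} (r0 : V) {N : ℕ}
    (hN : ∀ J, IsJoin a b J → Disjoint J K → N ≤ J.card)
    (hK : ∀ X, Odd (cut a b univ X).card → (cut a b (univ \ K) X).Nonempty)
    {t : ℝ} (ht : 0 < t) (htN : t < N) :
    ∃ y, Pack a b K r0 y ∧ ∑ X, y X = t := by
  classical
  let S : Finset (Finset V) := univ.filter fun X => Odd (cut a b univ X).card ∧ r0 ∉ X
  have hcompl : ∀ X, Odd (cut a b univ X).card → ∃ Z ∈ S, ∀ M : Finset E, cut a b M X = cut a b M Z := by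
    intro X hX
    by_cases hr : r0 ∈ X
    · refine ⟨Xᶜ, ?_, fun M => (cut_compl a b M X).symm⟩
      simp only [S, mem_filter, mem_univ, true_and, cut_compl, mem_compl, not_not]
      exact ⟨hX, hr⟩
    · refine ⟨X, ?_, fun M => rfl⟩
      simp only [S, mem_filter, mem_univ, true_and]
      exact ⟨hX, hr⟩
  have hodd : ∃ X, Odd (cut a b univ X).card := by
    by_contra hcon
    push Not at hcon
    have h1 : IsJoin a b ∅ := by
      intro X
      have h2 : cut a b ∅ X = ∅ := by
        apply eq_empty_of_forall_notMem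
        intro e he
        exact absurd (mem_cut.1 he).1 (notMem_empty _)
      rw [h2, card_empty, Nat.cast_zero]
      have := hcon X
      rw [Nat.not_odd_iff_even] at this
      exact (ZMod.natCast_eq_zero_iff_even.2 this).symm
    have h3 := hN ∅ h1 (disjoint_empty_left _)
    rw [card_empty] at h3
    have h4 : (N : ℝ) ≤ 0 := by exact_mod_cast h3
    linarith
  obtain ⟨X0, hX0⟩ := hodd
  have hSne : S.Nonempty := by
    obtain ⟨Z, hZ, _⟩ := hcompl X0 hX0
    exact ⟨Z, hZ⟩
  have hCne : (univ \ K).Nonempty := by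
    obtain ⟨e, he⟩ := hK X0 hX0
    exact ⟨e, (mem_cut.1 he).1⟩
  rcases minimax (Finset V) E S (univ \ K) (fun X e => ix a b e X) (1 / t) hSne hCne with
    ⟨τ, hτ0, hτ1, hτS, hτ⟩ | ⟨l, hl0, hl1, hlC, hl⟩
  · refine ⟨fun X => t * τ X, ⟨fun X => mul_nonneg ht.le (hτ0 X), fun X hX => ?_, fun e he => ?_⟩, ?_⟩
    · have h1 := hτS X (fun h => hX (by simp only [h, mul_zero]))
      simpa only [S, mem_filter, mem_univ, true_and] using h1
    · have h1 := hτ e (by rw [mem_sdiff]; exact ⟨mem_univ _, he⟩)
      have h2 : ∑ X, t * τ X * ix a b e X = t * ∑ X, τ X * ix a b e X := by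
        rw [mul_sum]
        exact sum_congr rfl fun X _ => by ring
      rw [h2]
      rw [le_div_iff₀ ht] at h1
      linarith
    · rw [← mul_sum, hτ1, mul_one]
  · exfalso
    obtain ⟨J, hJ, hJK, hJc⟩ := primal (a := a) (b := b) (K := K) (x := fun e => t * l e)
      (fun e => mul_nonneg ht.le (hl0 e)) (by
        intro X hX
        obtain ⟨Z, hZ, hZX⟩ := hcompl X hX
        have h1 := hl Z hZ
        rw [hZX, sum_ix]
        have h2 : ∑ e ∈ univ \ K, t * l e * ix a b e Z = t * ∑ e, l e * ix a b e Z := by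
          rw [mul_sum]
          rw [← sum_subset (subset_univ (univ \ K))]
          · exact sum_congr rfl fun e _ => by ring
          · intro e _ he
            have : l e = 0 := by
              by_contra h
              exact he (hlC e h)
            rw [this]; ring
        rw [h2]
        rw [div_le_iff₀ ht] at h1
        linarith)
    have h1 : ∑ e ∈ univ \ K, t * l e ≤ t := by
      rw [← mul_sum]
      have h2 : ∑ e ∈ univ \ K, l e ≤ 1 := by
        rw [← hl1]
        exact sum_le_sum_of_subset_of_nonneg (subset_univ _) fun e _ _ => hl0 e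
      calc t * ∑ e ∈ univ \ K, l e ≤ t * 1 := mul_le_mul_of_nonneg_left h2 ht.le
        _ = t := mul_one t
    have h2 : (N : ℝ) ≤ J.card := by exact_mod_cast hN J hJ hJK
    linarith

/-- the size function used for uncrossing -/
def sz (X : Finset V) : ℝ := (X.card : ℝ) * (Xᶜ.card : ℝ)

/-- The exchange of `X, Y` for `P, Q`. -/
noncomputable def exch (y : Finset V → ℝ) (δ : ℝ) (X Y P Q : Finset V) (Z : Finset V) : ℝ :=
  y Z + δ * ((if Z = P then 1 else 0) + (if Z = Q then 1 else 0) -
    (if Z = X then 1 else 0) - (if Z = Y then 1 else 0))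

lemma sum_exch (y : Finset V → ℝ) (δ : ℝ) (X Y P Q : Finset V) (c : Finset V → ℝ) :
    ∑ Z, exch y δ X Y P Q Z * c Z = ∑ Z, y Z * c Z + δ * (c P + c Q - c X - c Y) := by
  have h1 : ∀ W : Finset V, ∑ Z : Finset V, (if Z = W then c Z else 0) = c W := by
    intro W; simp
  have h2 : ∀ Z, exch y δ X Y P Q Z * c Z = y Z * c Z + δ * ((if Z = P then c Z else 0) +
      (if Z = Q then c Z else 0) - (if Z = X then c Z else 0) - (if Z = Y then c Z else 0)) := by
    intro Z
    have h3 : ∀ W : Finset V, (if Z = W then c Z else 0) = (if Z = W then 1 else 0) * c Z := by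
      intro W; split_ifs <;> ring
    rw [h3, h3, h3, h3]
    unfold exch
    ring
  rw [sum_congr rfl fun Z _ => h2 Z, sum_add_distrib, ← mul_sum, sum_sub_distrib, sum_sub_distrib,
    sum_add_distrib, h1, h1, h1, h1]

theorem exists_laminar {a b : E → V} {K : Finset E} {r0 : V} {t : ℝ}
    (h : ∃ y, Pack a b K r0 y ∧ ∑ X, y X = t) :
    ∃ y, Pack a b K r0 y ∧ ∑ X, y X = t ∧
      ∀ X Y, y X ≠ 0 → y Y ≠ 0 → X ⊆ Y ∨ Y ⊆ X ∨ Disjoint X Y := by
  classical
  let Sf : Set (Finset V → ℝ) := {y | Pack a b K r0 y ∧ ∑ X, y X = t}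
  have hSf : Sf = (Set.univ.pi fun _ => Set.Icc 0 t) ∩ ({y | ∀ X, (Odd (cut a b univ X).card ∧ r0 ∉ X) ∨ y X = 0} ∩
      ({y | ∀ e, e ∉ K → ∑ X, y X * ix a b e X ≤ 1} ∩ {y | ∑ X, y X = t})) := by
    ext y
    simp only [Sf, Set.mem_ofPred_eq, Set.mem_inter_iff, Set.mem_pi, Set.mem_univ, true_implies,
      Set.mem_Icc]
    constructor
    · rintro ⟨h1, h2⟩
      refine ⟨fun X => ⟨h1.nn X, ?_⟩, fun X => ?_, h1.load, h2⟩
      · rw [← h2]
        exact single_le_sum (fun Z _ => h1.nn Z) (mem_univ X)
      · by_cases h3 : y X = 0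
        · exact Or.inr h3
        · exact Or.inl (h1.supp X h3)
    · rintro ⟨h1, h2, h3, h4⟩
      exact ⟨⟨fun X => (h1 X).1, fun X hX => (h2 X).resolve_right hX, h3⟩, h4⟩
  have hc : IsCompact Sf := by
    rw [hSf]
    refine (isCompact_univ_pi fun _ => isCompact_Icc).inter_right ?_
    refine IsClosed.inter ?_ (IsClosed.inter ?_ ?_)
    · have : {y : Finset V → ℝ | ∀ X, (Odd (cut a b univ X).card ∧ r0 ∉ X) ∨ y X = 0} =
        ⋂ X, {y | (Odd (cut a b univ X).card ∧ r0 ∉ X) ∨ y X = 0} := by
        ext y; simp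
      rw [this]
      refine isClosed_iInter fun X => ?_
      by_cases hX : Odd (cut a b univ X).card ∧ r0 ∉ X
      · have : {y : Finset V → ℝ | (Odd (cut a b univ X).card ∧ r0 ∉ X) ∨ y X = 0} = Set.univ := by
          ext y; simp [hX]
        rw [this]; exact isClosed_univ
      · have : {y : Finset V → ℝ | (Odd (cut a b univ X).card ∧ r0 ∉ X) ∨ y X = 0} =
          {y | y X = 0} := by
          ext y
          simp only [Set.mem_ofPred_eq]
          tauto
        rw [this]
        exact isClosed_eq (continuous_apply X) continuous_const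
    · have : {y : Finset V → ℝ | ∀ e, e ∉ K → ∑ X, y X * ix a b e X ≤ 1} =
        ⋂ e, ⋂ (_ : e ∉ K), {y | ∑ X, y X * ix a b e X ≤ 1} := by
        ext y; simp
      rw [this]
      refine isClosed_iInter fun e => isClosed_iInter fun _ => isClosed_le ?_ continuous_const
      exact continuous_finsetSum _ fun X _ => (continuous_apply X).mul continuous_const
    · refine isClosed_eq ?_ continuous_const
      exact continuous_finsetSum _ fun X _ => continuous_apply X
  obtain ⟨y, hy, hmin⟩ := hc.exists_isMinOn h (f := fun y => ∑ X, y X * sz X)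
    (continuous_finsetSum _ fun X _ => (continuous_apply X).mul continuous_const).continuousOn
  refine ⟨y, hy.1, hy.2, ?_⟩
  intro X Y hX hY
  by_contra hcon
  push Not at hcon
  obtain ⟨hXY, hYX, hdis⟩ := hcon
  have hne : X ≠ Y := fun h => hXY (by rw [h])
  -- the main exchange step
  have key : ∀ P Q : Finset V, (Odd (cut a b univ P).card ∧ r0 ∉ P) →
      (Odd (cut a b univ Q).card ∧ r0 ∉ Q) →
      (∀ e, ix a b e P + ix a b e Q ≤ ix a b e X + ix a b e Y) →
      sz P + sz Q < sz X + sz Y → False := by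
    intro P Q hP hQ hl hs
    set δ : ℝ := min (y X) (y Y) with hδ
    have hδ0 : 0 < δ := lt_min ((hy.1.nn X).lt_of_ne' hX) ((hy.1.nn Y).lt_of_ne' hY)
    have hmem : exch y δ X Y P Q ∈ Sf := by
      refine ⟨⟨fun Z => ?_, fun Z hZ => ?_, fun e he => ?_⟩, ?_⟩
      · unfold exch
        have h0 := hy.1.nn Z
        have h1 : (0 : ℝ) ≤ (if Z = P then 1 else 0) + (if Z = Q then 1 else 0) := by
          split_ifs <;> norm_num
        have h2 : δ * ((if Z = X then 1 else 0) + (if Z = Y then 1 else 0)) ≤ y Z := by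
          by_cases g1 : Z = X
          · have g2 : Z ≠ Y := fun h => hne (g1.symm.trans h)
            rw [if_pos g1, if_neg g2, g1]
            have := min_le_left (y X) (y Y)
            linarith
          · rw [if_neg g1]
            by_cases g2 : Z = Y
            · rw [if_pos g2, g2]
              have := min_le_right (y X) (y Y)
              linarith
            · rw [if_neg g2]; linarith
        nlinarith
      · by_cases g1 : Z = P
        · rw [g1]; exact hP
        · by_cases g2 : Z = Q
          · rw [g2]; exact hQ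
          · apply hy.1.supp Z
            intro h0
            have g3 : Z ≠ X := fun h => hX (by rw [← h]; exact h0)
            have g4 : Z ≠ Y := fun h => hY (by rw [← h]; exact h0)
            apply hZ
            unfold exch
            rw [if_neg g1, if_neg g2, if_neg g3, if_neg g4, h0]
            ring
      · rw [sum_exch]
        have h1 := hy.1.load e he
        have h2 := hl e
        nlinarith
      · have h1 := sum_exch y δ X Y P Q (fun _ => 1)
        simp only [mul_one] at h1
        rw [h1, hy.2]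
        ring
    have h1 := hmin hmem
    simp only [Set.mem_ofPred_eq] at h1
    rw [sum_exch] at h1
    nlinarith
  have hXo := hy.1.supp X hX
  have hYo := hy.1.supp Y hY
  -- cardinalities
  have hXc : X.card = (X ∩ Y).card + (X \ Y).card := (card_inter_add_card_sdiff X Y).symm
  have hYc : Y.card = (X ∩ Y).card + (Y \ X).card := by
    rw [inter_comm]; exact (card_inter_add_card_sdiff Y X).symm
  have hUc : (X ∪ Y).card = (X ∩ Y).card + (X \ Y).card + (Y \ X).card := by
    have := card_union_add_card_inter X Y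
    omega
  have hn : ∀ Z : Finset V, Z.card + Zᶜ.card = Fintype.card V := card_add_card_compl
  set i := (X ∩ Y).card with hi
  set x := (X \ Y).card with hx
  set z := (Y \ X).card with hz
  set w := (X ∪ Y)ᶜ.card with hw
  have hnV : Fintype.card V = i + x + z + w := by rw [← hn (X ∪ Y), hUc]
  have hXcc : Xᶜ.card = z + w := by have := hn X; omega
  have hYcc : Yᶜ.card = x + w := by have := hn Y; omega
  have hi0 : 0 < i := by
    rw [hi, card_pos]
    rwa [not_disjoint_iff_nonempty_inter] at hdis
  have hx0 : 0 < x := by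
    rw [hx, card_pos, sdiff_nonempty]; exact hXY
  have hz0 : 0 < z := by
    rw [hz, card_pos, sdiff_nonempty]; exact hYX
  have hw0 : 0 < w := by
    rw [hw, card_pos]
    refine ⟨r0, ?_⟩
    rw [mem_compl, mem_union, not_or]
    exact ⟨hXo.2, hYo.2⟩
  have hxr : (0 : ℝ) < x := by exact_mod_cast hx0
  have hir : (0 : ℝ) < i := by exact_mod_cast hi0
  have hzr : (0 : ℝ) < z := by exact_mod_cast hz0
  have hwr : (0 : ℝ) < w := by exact_mod_cast hw0
  have hszX : sz X = ((i : ℝ) + x) * (z + w) := by
    unfold sz; rw [hXcc, hXc]; push_cast; ring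
  have hszY : sz Y = ((i : ℝ) + z) * (x + w) := by
    unfold sz; rw [hYcc, hYc]; push_cast; ring
  by_cases hodd : Odd (cut a b univ (X ∩ Y)).card
  · have hodd2 : Odd (cut a b univ (X ∪ Y)).card := by
      have h1 := par4 a b X Y
      rw [cast_odd] at hodd ⊢
      rw [hodd, cast_odd.1 hXo.1, cast_odd.1 hYo.1] at h1
      have h2 : ∀ u : ZMod 2, 1 + u = 1 + 1 → u = 1 := by decide
      exact h2 _ h1
    refine key (X ∩ Y) (X ∪ Y) ⟨hodd, fun h => hXo.2 (mem_inter.1 h).1⟩
      ⟨hodd2, fun h => (mem_union.1 h).elim hXo.2 hYo.2⟩ ?_ ?_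
    · intro e
      unfold ix
      simp only [mem_inter, mem_union]
      by_cases h1 : a e ∈ X <;> by_cases h2 : a e ∈ Y <;> by_cases h3 : b e ∈ X <;>
        by_cases h4 : b e ∈ Y <;> simp [h1, h2, h3, h4]
    · have h1 : sz (X ∩ Y) = (i : ℝ) * (x + z + w) := by
        unfold sz
        have : (X ∩ Y)ᶜ.card = x + z + w := by have := hn (X ∩ Y); omega
        rw [this, ← hi]; push_cast; ring
      have h2 : sz (X ∪ Y) = ((i : ℝ) + x + z) * w := by
        unfold sz
        rw [hUc, ← hw]; push_cast; ring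
      rw [h1, h2, hszX, hszY]
      nlinarith [mul_pos hxr hzr]
  · have hev : ((cut a b univ (X ∩ Y)).card : ZMod 2) = 0 := by
      rw [Nat.not_odd_iff_even] at hodd
      exact (ZMod.natCast_eq_zero_iff_even).2 hodd
    have h4 : Odd (cut a b univ (X \ Y)).card := by
      rw [cast_odd, par_sdiff, cast_odd.1 hXo.1, hev, sub_zero]
    have h5 : Odd (cut a b univ (Y \ X)).card := by
      rw [cast_odd, par_sdiff, cast_odd.1 hYo.1, inter_comm, hev, sub_zero]
    refine key (X \ Y) (Y \ X) ⟨h4, fun h => hXo.2 (mem_sdiff.1 h).1⟩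
      ⟨h5, fun h => hYo.2 (mem_sdiff.1 h).1⟩ ?_ ?_
    · intro e
      unfold ix
      simp only [mem_sdiff]
      by_cases h1 : a e ∈ X <;> by_cases h2 : a e ∈ Y <;> by_cases h3 : b e ∈ X <;>
        by_cases h4 : b e ∈ Y <;> simp [h1, h2, h3, h4]
    · have h1 : sz (X \ Y) = (x : ℝ) * (i + z + w) := by
        unfold sz
        have : (X \ Y)ᶜ.card = i + z + w := by have := hn (X \ Y); omega
        rw [this, ← hx]; push_cast; ring
      have h2 : sz (Y \ X) = (z : ℝ) * (i + x + w) := by
        unfold sz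
        have : (Y \ X)ᶜ.card = i + x + w := by have := hn (Y \ X); omega
        rw [this, ← hz]; push_cast; ring
      rw [h1, h2, hszX, hszY]
      nlinarith [mul_pos hir hwr]

end Pool.Agent.Lib.MP_d47134_co
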