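import Pool.Agent.Lib.MP_d47134_co.Reg.Primal
import Pool.Agent.Lib.MP_d47134_co.Asy.Main

/-!
# Windows: parity joins between two nested sets that avoid `K`
-/

set_option autoImplicit false
set_option linter.unusedSectionVars false

namespace Pool.Agent.Lib.MP_d47134_co

open Finset

variable {V E : Type} [Fintype V] [DecidableEq V] [Fintype E] [DecidableEq E]

/-- number of ends in `X` of the edge `e` -/
def en (a b : E → V) (e : E) (X : Finset V) : ℝ :=
  (if a e ∈ X then 1 else 0) + (if b e ∈ X then 1 else 0)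

lemma en_nn (a b : E → V) (e : E) (X : Finset V) : 0 ≤ en a b e X := by
  unfold en; split_ifs <;> norm_num

/-- degree of `X` in `M` (loops count twice) -/
def dg (a b : E → V) (M : Finset E) (X : Finset V) : ℝ := ∑ e ∈ M, en a b e X

lemma dg_nn (a b : E → V) (M : Finset E) (X : Finset V) : 0 ≤ dg a b M X :=
  sum_nonneg fun e _ => en_nn a b e X

lemma dg_union {a b : E → V} {M : Finset E} {X Y : Finset V} (h : Disjoint X Y) :
    dg a b M (X ∪ Y) = dg a b M X + dg a b M Y := by
  unfold dg
  rw [← sum_add_distrib]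
  refine sum_congr rfl fun e _ => ?_
  have h1 : ∀ v, v ∈ X → v ∉ Y := fun v hv => disjoint_left.1 h hv
  unfold en
  simp only [mem_union]
  have h2 := h1 (a e)
  have h3 := h1 (b e)
  by_cases g1 : a e ∈ X <;> by_cases g2 : a e ∈ Y <;> by_cases g3 : b e ∈ X <;>
    by_cases g4 : b e ∈ Y <;> simp_all

lemma dg_mono {a b : E → V} {M : Finset E} {X Y : Finset V} (h : X ⊆ Y) :
    dg a b M X ≤ dg a b M Y := by
  have h1 := dg_union (a := a) (b := b) (M := M) (X := X) (Y := Y \ X) disjoint_sdiff
  rw [union_sdiff_of_subset h] at h1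
  have := dg_nn a b M (Y \ X)
  linarith

lemma dg_univ (a b : E → V) (M : Finset E) : dg a b M univ = 2 * M.card := by
  unfold dg en
  simp only [mem_univ, if_true]
  rw [sum_const, nsmul_eq_mul]
  ring

lemma dg_sum (a b : E → V) (M : Finset E) (X : Finset V) :
    dg a b M X = ∑ v ∈ X, dg a b M {v} := by
  unfold dg
  rw [sum_comm]
  refine sum_congr rfl fun e _ => ?_
  unfold en
  rw [sum_add_distrib]
  simp only [mem_singleton]
  rw [sum_ite_eq, sum_ite_eq]

lemma cut_le_dg (a b : E → V) (M : Finset E) (X : Finset V) :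
    ((cut a b M X).card : ℝ) ≤ dg a b M X := by
  rw [cut, card_filter]
  push_cast
  unfold dg
  refine sum_le_sum fun e _ => ?_
  unfold en
  by_cases h1 : a e ∈ X <;> by_cases h2 : b e ∈ X <;> simp [h1, h2]

lemma ov_le {k : ℕ} {a b : E → V} (h : OC k a b) (X : Finset V) :
    (k : ℝ) * ov a b X ≤ dg a b univ X := by
  rw [dg_sum]
  unfold ov
  rw [card_filter]
  push_cast
  rw [mul_sum]
  refine sum_le_sum fun v _ => ?_
  by_cases hv : Odd (cut a b univ {v}).card
  · rw [if_pos hv, mul_one]
    refine le_trans ?_ (cut_le_dg a b univ {v})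
    exact_mod_cast h _ hv
  · rw [if_neg hv, mul_zero]
    exact dg_nn _ _ _ _

lemma ov_union {a b : E → V} {X Y : Finset V} (h : Disjoint X Y) :
    ov a b (X ∪ Y) = ov a b X + ov a b Y := by
  unfold ov
  rw [filter_union, card_union_of_disjoint (disjoint_filter_filter h)]

lemma exists_even_sub (S : Finset E) {f : ℕ} (hf : 1 ≤ f) :
    ∃ S0 ⊆ S, Even S0.card ∧ (S \ S0).card ≤ f ∧ (S0 = ∅ ∨ f ≤ (S \ S0).card + 1) := by
  by_cases h : S.card ≤ f
  · exact ⟨∅, empty_subset _, by simp, by simpa using h, Or.inl rfl⟩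
  · push Not at h
    obtain ⟨j, hj1, hj2, hj3⟩ : ∃ j, j ≤ f ∧ f ≤ j + 1 ∧ Even (S.card - j) := by
      rcases Nat.even_or_odd (S.card - f) with h1 | h1
      · exact ⟨f, le_rfl, by omega, h1⟩
      · refine ⟨f - 1, by omega, by omega, ?_⟩
        have : S.card - (f - 1) = (S.card - f) + 1 := by omega
        rw [this]
        exact h1.add_one
    obtain ⟨S1, hS1, hS1c⟩ := exists_subset_card_eq (s := S) (n := j) (by omega)
    refine ⟨S \ S1, sdiff_subset, ?_, ?_, Or.inr ?_⟩
    · rw [card_sdiff_of_subset hS1, hS1c]; exact hj3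
    · rw [Finset.sdiff_sdiff_eq_self hS1, hS1c]; exact hj1
    · rw [Finset.sdiff_sdiff_eq_self hS1, hS1c]; exact hj2

/-- the potential of a region -/
noncomputable def pot (a b : E → V) (k : ℕ) (θ : ℝ) (X : Finset V) : ℝ :=
  θ * dg a b univ X / (2 * k) - (θ - 1) * ov a b X / 2

lemma pw (K B1 D1 B2 D2 : Prop) [Decidable K] [Decidable B1] [Decidable D1] [Decidable B2]
    [Decidable D2] {γ : ℝ} (h0 : 0 ≤ γ) (h1 : B1 → D1) (h2 : B2 → D2) (h3 : ¬ (B1 ∧ B2))
    (h4 : ¬ (¬ D1 ∧ ¬ D2)) :
    (if K then 1 + γ else 1) ≤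
      ((if D1 ∧ ¬ B1 then 1 else 0) + (if D2 ∧ ¬ B2 then 1 else 0) : ℝ) / 2 +
      (if ¬ K ∧ ¬ (B1 ↔ B2) then 1 / 2 else 0) + (if ¬ K ∧ ¬ (D1 ↔ D2) then 1 / 2 else 0) +
      (if K then (1 / 2 + γ) * ((if D1 ∧ ¬ B1 then 1 else 0) + (if D2 ∧ ¬ B2 then 1 else 0))
        else 0) +
      (if K ∧ ((B1 ∧ ¬ D2) ∨ (B2 ∧ ¬ D1)) then 1 + γ else 0) := by
  by_cases hK : K
  · simp only [hK, not_true, false_and, if_false, if_true, true_and]
    by_cases g1 : B1
    · have g2 := h1 g1
      have g3 : ¬ B2 := fun h => h3 ⟨g1, h⟩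
      by_cases g4 : D2
      · simp only [g1, g2, g3, g4, not_true, not_false_eq_true, and_false, if_false, and_true,
          if_true, false_and, or_false]
        linarith
      · simp only [g1, g2, g3, g4, not_true, not_false_eq_true, and_false, if_false, and_true,
          if_true, false_and, or_false]
        linarith
    · by_cases g2 : D1
      · by_cases g3 : B2
        · have g4 := h2 g3
          simp only [g1, g2, g3, g4, not_true, not_false_eq_true, and_false, if_false, and_true,
            if_true, false_and, or_false]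
          linarith
        · by_cases g4 : D2
          · simp only [g1, g2, g3, g4, not_true, not_false_eq_true, and_false, if_false, and_true,
              if_true, false_and, or_false]
            linarith
          · simp only [g1, g2, g3, g4, not_true, not_false_eq_true, and_false, if_false, and_true,
              if_true, false_and, or_false]
            linarith
      · have g4 : D2 := by
          by_contra h; exact h4 ⟨g2, h⟩
        by_cases g3 : B2
        · simp only [g1, g2, g3, g4, not_true, not_false_eq_true, and_false, if_false, and_true,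
            if_true, false_and, or_true]
          linarith
        · simp only [g1, g2, g3, g4, not_true, not_false_eq_true, and_false, if_false, and_true,
            if_true, false_and, or_false]
          linarith
  · simp only [hK, not_false_eq_true, true_and, if_false, false_and]
    by_cases g1 : B1
    · have g2 := h1 g1
      have g3 : ¬ B2 := fun h => h3 ⟨g1, h⟩
      by_cases g4 : D2
      · simp only [g1, g2, g3, g4, not_true, not_false_eq_true, and_false, if_false, and_true,
          if_true, iff_false, iff_true]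
        norm_num
      · simp only [g1, g2, g3, g4, not_true, not_false_eq_true, and_false, if_false, and_true,
          if_true, iff_false]
        norm_num
    · by_cases g2 : D1
      · by_cases g3 : B2
        · have g4 := h2 g3
          simp only [g1, g2, g3, g4, not_true, not_false_eq_true, and_false, if_false, and_true,
            if_true, iff_true]
          norm_num
        · by_cases g4 : D2
          · simp only [g1, g2, g3, g4, not_true, not_false_eq_true, if_false, and_true,
              if_true]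
            norm_num
          · simp only [g1, g2, g3, g4, not_true, not_false_eq_true, if_false, and_true,
              if_true, iff_false, false_and]
            norm_num
      · have g4 : D2 := by
          by_contra h; exact h4 ⟨g2, h⟩
        by_cases g3 : B2
        · simp only [g1, g2, g3, g4, not_true, not_false_eq_true, and_false, if_false,
            if_true, iff_true, false_and]
          norm_num
        · simp only [g1, g2, g3, g4, not_true, not_false_eq_true, if_false, and_true,
            if_true, iff_true, false_and]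
          norm_num

theorem window {k g f : ℕ} (hk : Odd k) (hk3 : 3 ≤ k) {a b : E → V} (hOC : OC k a b)
    {K : Finset E} (hgf : k + 1 ≤ g + f) (hf : 1 ≤ f)
    (hcon : ∀ X, Odd (cut a b univ X).card → g ≤ (cut a b (univ \ K) X).card)
    {B D : Finset V} (hBD : B ⊆ D) {b0 r0 : V} (hb0 : b0 ∈ B) (hr0 : r0 ∉ D)
    (hB : Odd (cut a b univ B).card) (hD : Odd (cut a b univ D).card)
    {C ρ θ : ℝ} (hCB : ((cut a b (univ \ K) B).card : ℝ) ≤ C * k)
    (hCD : ((cut a b (univ \ K) D).card : ℝ) ≤ C * k)
    (hρ : dg a b K (D \ B) ≤ ρ) (hθ1 : 1 ≤ θ) (hθ : θ * (k - ρ - f) = k) :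
    ∃ J : Finset E, Disjoint J K ∧
      (∀ Y, Odd (cut a b univ Y).card → Y ⊆ D → (B ⊆ Y ∨ Disjoint B Y) →
        ∃ e ∈ J, ¬ (a e ∈ Y ↔ b e ∈ Y)) ∧
      (J.card : ℝ) ≤ pot a b k θ (D \ B) + (θ * C + 1) := by
  classical
  have hk0 : (0 : ℝ) < k := by
    have : 0 < k := by omega
    exact_mod_cast this
  have hC0 : 0 ≤ C := by
    have h1 : (0 : ℝ) ≤ C * k := le_trans (by positivity) hCB
    by_contra h2
    push Not at h2
    nlinarith
  have hρ0 : 0 ≤ ρ := le_trans (dg_nn _ _ _ _) hρ
  have hkρ : 0 < (k : ℝ) - ρ - f := by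
    by_contra h2
    push Not at h2
    nlinarith
  set W := D \ B with hW
  have hWB : ∀ v, v ∈ W ↔ v ∈ D ∧ v ∉ B := fun v => by rw [hW, mem_sdiff]
  have hb0W : b0 ∉ W := by intro h; exact ((hWB _).1 h).2 hb0
  have hr0W : r0 ∉ W := fun h => hr0 ((hWB _).1 h).1
  have hb0D : b0 ∈ D := hBD hb0
  have hbr : b0 ≠ r0 := fun h => hr0 (h ▸ hb0D)
  set S : Finset E := K.filter fun e => (a e ∈ B ∧ b e ∉ D) ∨ (b e ∈ B ∧ a e ∉ D) with hS
  obtain ⟨S0, hS0, hS0e, hS1, hS2⟩ := exists_even_sub S hf
  let φ : V → V := fun v => if v ∈ B then b0 else if v ∈ D then v else r0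
  have hφB : ∀ v, v ∈ B → φ v = b0 := fun v hv => if_pos hv
  have hφW : ∀ v, v ∈ W → φ v = v := fun v hv => by
    rw [hWB] at hv
    simp only [φ]
    rw [if_neg hv.2, if_pos hv.1]
  have hφR : ∀ v, v ∉ D → φ v = r0 := fun v hv => by
    simp only [φ]
    rw [if_neg (fun h => hv (hBD h)), if_neg hv]
  let a' : E → V := fun e => if e ∈ S0 then b0 else φ (a e)
  let b' : E → V := fun e => if e ∈ S0 then b0 else φ (b e)
  let pr : Finset V → Finset V := fun X => univ.filter fun v => φ v ∈ X
  have hpr : ∀ X v, v ∈ pr X ↔ φ v ∈ X := fun X v => by simp [pr]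
  have hcut : ∀ M X, cut a' b' M X = cut a b M (pr X) \ S0 := by
    intro M X
    ext e
    rw [mem_sdiff, mem_cut, mem_cut, hpr, hpr]
    simp only [a', b']
    by_cases he : e ∈ S0
    · simp [he]
    · simp [he]
  have hSX : ∀ X : Finset V, ∀ e ∈ S, (φ (a e) ∈ X ↔ φ (b e) ∈ X) ↔ (b0 ∈ X ↔ r0 ∈ X) := by
    intro X e he
    rw [hS, mem_filter] at he
    rcases he.2 with ⟨h1, h2⟩ | ⟨h1, h2⟩
    · rw [hφB _ h1, hφR _ h2]
    · rw [hφB _ h1, hφR _ h2]; tauto
  have hpar : ∀ X, (((cut a' b' univ X).card : ℕ) : ZMod 2) =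
      ((cut a b univ (pr X)).card : ZMod 2) := by
    intro X
    rw [hcut]
    by_cases hX : b0 ∈ X ↔ r0 ∈ X
    · have h1 : Disjoint (cut a b univ (pr X)) S0 := by
        rw [disjoint_left]
        intro e he he0
        rw [mem_cut, hpr, hpr] at he
        exact he.2 ((hSX X e (hS0 he0)).2 hX)
      rw [sdiff_eq_self_of_disjoint h1]
    · have h1 : S0 ⊆ cut a b univ (pr X) := by
        intro e he
        rw [mem_cut, hpr, hpr]
        exact ⟨mem_univ _, fun h => hX ((hSX X e (hS0 he)).1 h)⟩
      have h2 : (cut a b univ (pr X) \ S0).card + S0.card = (cut a b univ (pr X)).card :=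
        card_sdiff_add_card_eq_card h1
      rw [← h2]
      push_cast
      rw [(ZMod.natCast_eq_zero_iff_even (n := S0.card)).2 hS0e, add_zero]
  have hOC' : OC k a' b' := by
    intro X hX
    have hX2 : Odd (cut a b univ (pr X)).card := by
      rw [cast_odd] at hX ⊢
      rw [← hpar]; exact hX
    rw [hcut]
    by_cases hXb : b0 ∈ X ↔ r0 ∈ X
    · have h1 : Disjoint (cut a b univ (pr X)) S0 := by
        rw [disjoint_left]
        intro e he he0
        rw [mem_cut, hpr, hpr] at he
        exact he.2 ((hSX X e (hS0 he0)).2 hXb)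
      rw [sdiff_eq_self_of_disjoint h1]
      exact hOC _ hX2
    · rcases hS2 with h0 | h0
      · rw [h0, sdiff_empty]; exact hOC _ hX2
      · have h1 : cut a b (univ \ K) (pr X) ∪ (S \ S0) ⊆ cut a b univ (pr X) \ S0 := by
          intro e he
          rw [mem_union] at he
          rw [mem_sdiff, mem_cut, hpr, hpr]
          rcases he with he | he
          · rw [mem_cut, mem_sdiff, hpr, hpr] at he
            refine ⟨⟨mem_univ _, he.2⟩, fun h => he.1.2 ?_⟩
            exact (mem_filter.1 (hS0 h)).1
          · rw [mem_sdiff] at he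
            exact ⟨⟨mem_univ _, fun h => hXb ((hSX X e he.1).1 h)⟩, he.2⟩
        have h2 : Disjoint (cut a b (univ \ K) (pr X)) (S \ S0) := by
          rw [disjoint_left]
          intro e he he2
          rw [mem_cut, mem_sdiff] at he
          rw [mem_sdiff, hS, mem_filter] at he2
          exact he.1.2 he2.1.1
        have h3 := card_le_card h1
        rw [card_union_of_disjoint h2] at h3
        have h4 := hcon _ hX2
        omega
  -- weights
  set t : ℝ := ((ov a b W : ℕ) : ℝ) with ht
  set G : ℝ := dg a b univ W with hG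
  have htG : (k : ℝ) * t ≤ G := ov_le hOC W
  set ex : ℝ := G / (2 * k) - t / 2 with hex
  have hex0 : 0 ≤ ex := by
    rw [hex, sub_nonneg, div_le_div_iff₀ (by norm_num) (by positivity)]
    linarith
  set γ : ℝ := θ * (ex + C) with hγ
  have hγ0 : 0 ≤ γ := by rw [hγ]; positivity
  let w : E → ℝ := fun e => if a' e = b' e then 0 else if e ∈ K then 1 + γ else 1
  have hw0 : ∀ e, 0 ≤ w e := by
    intro e
    simp only [w]
    split_ifs <;> linarith
  obtain ⟨J, hJ⟩ := exists_sol hk hk3 _ a' b' w hOC' hw0 (Nat.lt_succ_self _)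
  have hwJ : ∀ e ∈ J, w e = if e ∈ K then 1 + γ else 1 := by
    intro e he
    simp only [w]
    rw [if_neg (hJ.nl e he)]
  -- total weight
  have htot : ∑ e, w e ≤ G / 2 + C * k + (1 / 2 + γ) * ρ + (1 + γ) * f := by
    have h1 : ∀ e, w e ≤ en a b e W / 2 + (if e ∈ cut a b (univ \ K) B then 1 / 2 else 0) +
        (if e ∈ cut a b (univ \ K) D then 1 / 2 else 0) +
        (if e ∈ K then (1 / 2 + γ) * en a b e W else 0) +
        (if e ∈ S \ S0 then 1 + γ else 0) := by
      intro e
      by_cases hl : a' e = b' e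
      · simp only [w]
        rw [if_pos hl]
        have h1 := en_nn a b e W
        have h2 : 0 ≤ (1 / 2 + γ) * en a b e W := by positivity
        have h3 : (0 : ℝ) ≤ if e ∈ cut a b (univ \ K) B then 1 / 2 else 0 := by
          split_ifs <;> norm_num
        have h4 : (0 : ℝ) ≤ if e ∈ cut a b (univ \ K) D then 1 / 2 else 0 := by
          split_ifs <;> norm_num
        have h5 : (0 : ℝ) ≤ if e ∈ K then (1 / 2 + γ) * en a b e W else 0 := by
          split_ifs <;> linarith
        have h6 : (0 : ℝ) ≤ if e ∈ S \ S0 then 1 + γ else 0 := by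
          split_ifs <;> linarith
        linarith
      · have hS0' : e ∉ S0 := by
          intro h
          apply hl
          simp only [a', b', if_pos h]
        have hφne : φ (a e) ≠ φ (b e) := by
          intro h
          apply hl
          simp only [a', b', if_neg hS0']
          exact h
        have hw : w e = if e ∈ K then 1 + γ else 1 := by
          simp only [w]; rw [if_neg hl]
        rw [hw]
        have hmc : ∀ Z : Finset V, e ∈ cut a b (univ \ K) Z ↔ e ∉ K ∧ ¬ (a e ∈ Z ↔ b e ∈ Z) := by
          intro Z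
          rw [mem_cut, mem_sdiff]
          simp
        have hmS : e ∈ S \ S0 ↔ e ∈ K ∧ ((a e ∈ B ∧ b e ∉ D) ∨ (b e ∈ B ∧ a e ∉ D)) := by
          rw [mem_sdiff, hS, mem_filter]
          tauto
        have hnotBB : ¬ (a e ∈ B ∧ b e ∈ B) := fun h => hφne (by rw [hφB _ h.1, hφB _ h.2])
        have hnotRR : ¬ (a e ∉ D ∧ b e ∉ D) := fun h => hφne (by rw [hφR _ h.1, hφR _ h.2])
        have hBDa : a e ∈ B → a e ∈ D := fun h => hBD h
        have hBDb : b e ∈ B → b e ∈ D := fun h => hBD h
        simp only [hmc, hmS, en, hWB]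
        exact pw _ _ _ _ _ hγ0 hBDa hBDb hnotBB hnotRR
    calc ∑ e, w e ≤ ∑ e, (en a b e W / 2 + (if e ∈ cut a b (univ \ K) B then 1 / 2 else 0) +
        (if e ∈ cut a b (univ \ K) D then 1 / 2 else 0) +
        (if e ∈ K then (1 / 2 + γ) * en a b e W else 0) +
        (if e ∈ S \ S0 then 1 + γ else 0)) := sum_le_sum fun e _ => h1 e
      _ = G / 2 + (cut a b (univ \ K) B).card / 2 + (cut a b (univ \ K) D).card / 2 +
          (1 / 2 + γ) * dg a b K W + (1 + γ) * (S \ S0).card := by
          rw [sum_add_distrib, sum_add_distrib, sum_add_distrib, sum_add_distrib, ← sum_div,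
            sum_ite_mem, sum_ite_mem, sum_ite_mem, sum_ite_mem, univ_inter, univ_inter, univ_inter,
            univ_inter, sum_const, sum_const, sum_const, ← mul_sum, nsmul_eq_mul, nsmul_eq_mul,
            nsmul_eq_mul]
          unfold dg at hG
          rw [hG]
          unfold dg
          ring
      _ ≤ _ := by
          have h2 : ((S \ S0).card : ℝ) ≤ f := by exact_mod_cast hS1
          have h3 : (1 / 2 + γ) * dg a b K W ≤ (1 / 2 + γ) * ρ :=
            mul_le_mul_of_nonneg_left hρ (by linarith)
          have h4 : (1 + γ) * ((S \ S0).card : ℝ) ≤ (1 + γ) * f :=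
            mul_le_mul_of_nonneg_left h2 (by linarith)
          linarith
  have hwt : (k : ℝ) * ∑ e ∈ J, w e ≤ G / 2 + C * k + (1 / 2 + γ) * ρ + (1 + γ) * f :=
    hJ.wt.trans htot
  -- the number of edges of J
  have hoddJ : ∀ X, Odd (cut a b univ (pr X)).card → (cut a' b' J X).Nonempty := by
    intro X hX
    rw [← card_pos]
    have h1 : Odd (cut a' b' J X).card := by
      rw [cast_odd] at hX ⊢
      rw [hJ.join, hpar]; exact hX
    exact h1.pos
  have hprW : ∀ v, v ∈ W → pr {v} = {v} := by
    intro v hv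
    ext u
    rw [hpr, mem_singleton, mem_singleton]
    by_cases h1 : u ∈ B
    · rw [hφB _ h1]
      constructor
      · intro h; exact absurd (h ▸ hv) hb0W
      · rintro rfl; exact absurd h1 ((hWB _).1 hv).2
    · by_cases h2 : u ∈ D
      · rw [hφW _ ((hWB _).2 ⟨h2, h1⟩)]
      · rw [hφR _ h2]
        constructor
        · intro h; exact absurd (h ▸ hv) hr0W
        · rintro rfl; exact absurd ((hWB _).1 hv).1 h2
  have hprb : pr {b0} = B := by
    ext u
    rw [hpr, mem_singleton]
    by_cases h1 : u ∈ B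
    · rw [hφB _ h1]; simp [h1]
    · by_cases h2 : u ∈ D
      · rw [hφW _ ((hWB _).2 ⟨h2, h1⟩)]
        constructor
        · rintro rfl; exact absurd hb0 h1
        · intro h; exact absurd h h1
      · rw [hφR _ h2]
        simp only [h1, iff_false]
        exact fun h => hbr h.symm
  have hprr : pr {r0} = Dᶜ := by
    ext u
    rw [hpr, mem_singleton, mem_compl]
    by_cases h1 : u ∈ B
    · rw [hφB _ h1]
      have := hBD h1
      simp only [this, not_true, iff_false]
      exact hbr
    · by_cases h2 : u ∈ D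
      · rw [hφW _ ((hWB _).2 ⟨h2, h1⟩)]
        simp only [h2, not_true, iff_false]
        rintro rfl; exact hr0 h2
      · rw [hφR _ h2]; simp [h2]
  have hcard : t / 2 + 1 ≤ (J.card : ℝ) := by
    set U : Finset V := insert b0 (insert r0 (W.filter fun v => Odd (cut a b univ {v}).card))
      with hU
    have hUc : U.card = ov a b W + 2 := by
      rw [hU, card_insert_of_notMem, card_insert_of_notMem]
      · rfl
      · intro h; exact hr0W (mem_filter.1 h).1
      · rw [mem_insert, not_or]
        exact ⟨hbr, fun h => hb0W (mem_filter.1 h).1⟩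
    have hU1 : ∀ u ∈ U, 1 ≤ (cut a' b' J {u}).card := by
      intro u hu
      rw [hU, mem_insert, mem_insert] at hu
      rw [Nat.one_le_iff_ne_zero, ← Nat.pos_iff_ne_zero, card_pos]
      rcases hu with rfl | rfl | hu
      · apply hoddJ; rw [hprb]; exact hB
      · apply hoddJ; rw [hprr, cut_compl]; exact hD
      · rw [mem_filter] at hu
        apply hoddJ; rw [hprW _ hu.1]; exact hu.2
    have h1 : U.card ≤ ∑ u ∈ U, (cut a' b' J {u}).card := by
      rw [card_eq_sum_ones]
      exact sum_le_sum hU1
    have h2 : ∑ u ∈ U, (cut a' b' J {u}).card ≤ ∑ u, (cut a' b' J {u}).card :=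
      sum_le_sum_of_subset (subset_univ _)
    have h3 := Asy.sum_deg (a := a') (b := b') J
    have h4 : ov a b W + 2 ≤ 2 * J.card := by omega
    have h5 : (ov a b W : ℝ) + 2 ≤ 2 * J.card := by exact_mod_cast h4
    rw [ht]
    linarith
  have hθ2 : θ * (ρ + f) = θ * k - k := by linarith
  have hfρ : ρ + f < k := by linarith
  have hf0 : (0 : ℝ) ≤ f := by positivity
  -- J avoids K
  have hdis : Disjoint J K := by
    rw [disjoint_left]
    intro e0 he0 he0K
    have h1 : (J.card : ℝ) + γ ≤ ∑ e ∈ J, w e := by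
      have h2 : (J.card : ℝ) + γ = ∑ e ∈ J, (1 + if e = e0 then γ else 0) := by
        rw [sum_add_distrib, sum_ite_eq', if_pos he0, sum_const, nsmul_eq_mul, mul_one]
      rw [h2]
      refine sum_le_sum fun e he => ?_
      rw [hwJ e he]
      by_cases h3 : e = e0
      · rw [if_pos h3, h3, if_pos he0K]
      · rw [if_neg h3]
        split_ifs <;> linarith
    have h2 : (k : ℝ) * (t / 2 + 1 + γ) ≤ G / 2 + C * k + (1 / 2 + γ) * ρ + (1 + γ) * f :=
      le_trans (mul_le_mul_of_nonneg_left (by linarith) hk0.le) hwt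
    have h3 : γ * (k - ρ - f) = k * ex + k * C := by
      rw [hγ]
      calc θ * (ex + C) * (k - ρ - f) = (θ * (k - ρ - f)) * (ex + C) := by ring
        _ = _ := by rw [hθ]; ring
    have h4 : (k : ℝ) * ex = G / 2 - k * t / 2 := by
      rw [hex]; field_simp
    nlinarith
  refine ⟨J, hdis, ?_, ?_⟩
  · intro Y hY hYD hYB
    have hφY : ∀ v, φ v ∈ Y ↔ v ∈ Y := by
      intro v
      by_cases h1 : v ∈ B
      · rw [hφB _ h1]
        rcases hYB with h2 | h2
        · exact ⟨fun _ => h2 h1, fun _ => h2 hb0⟩
        · rw [disjoint_left] at h2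
          exact ⟨fun h => absurd h (h2 hb0), fun h => absurd h (h2 h1)⟩
      · by_cases h2 : v ∈ D
        · rw [hφW _ ((hWB _).2 ⟨h2, h1⟩)]
        · rw [hφR _ h2]
          exact ⟨fun h => absurd (hYD h) hr0, fun h => absurd (hYD h) h2⟩
    have hprY : pr Y = Y := by
      ext v; rw [hpr, hφY]
    obtain ⟨e, he⟩ := hoddJ Y (by rw [hprY]; exact hY)
    rw [hcut, mem_sdiff, mem_cut, hprY] at he
    exact ⟨e, he.1.1, he.1.2⟩
  · have h1 : ∑ e ∈ J, w e = J.card := by
      rw [card_eq_sum_ones]
      push_cast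
      refine sum_congr rfl fun e he => ?_
      rw [hwJ e he, if_neg (disjoint_left.1 hdis he)]
    rw [h1] at hwt
    have h2 : (J.card : ℝ) ≤ G / (2 * k) + C + 1 + γ * (ρ + f) / k := by
      have h3 : (k : ℝ) * J.card ≤ k * (G / (2 * k) + C + 1 + γ * (ρ + f) / k) := by
        have h4 : (k : ℝ) * (G / (2 * k) + C + 1 + γ * (ρ + f) / k) =
            G / 2 + C * k + k + γ * (ρ + f) := by
          field_simp
        rw [h4]
        nlinarith
      exact le_of_mul_le_mul_left h3 hk0
    have h3 : γ * (ρ + f) / k = (θ - 1) * (ex + C) := by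
      rw [div_eq_iff hk0.ne', hγ]
      calc θ * (ex + C) * (ρ + f) = (θ * (ρ + f)) * (ex + C) := by ring
        _ = _ := by rw [hθ2]; ring
    rw [h3] at h2
    have h4 : G / (2 * k) = ex + t / 2 := by rw [hex]; ring
    have h5 : pot a b k θ W = θ * ex + t / 2 := by
      unfold pot
      rw [← hG, ← ht, hex]
      ring
    rw [h4] at h2
    rw [h5]
    linarith

end Pool.Agent.Lib.MP_d47134_co
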