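import Pool.Agent.Lib.MP_d47134_co.Reg.Dual
import Pool.Agent.Lib.MP_d47134_co.Reg.Window

/-!
# Central sets and the decomposition lemma
-/

set_option autoImplicit false
set_option linter.unusedSectionVars false

namespace Pool.Agent.Lib.MP_d47134_co

open Finset

variable {V E : Type} [Fintype V] [DecidableEq V] [Fintype E] [DecidableEq E]

/-- A laminar packing of odd cuts of bounded size. -/
structure Lam (a b : E → V) (K : Finset E) (r0 : V) (k : ℕ) (C : ℝ) (y : Finset V → ℝ) : Prop where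
  pack : Pack a b K r0 y
  lam : ∀ X Y, y X ≠ 0 → y Y ≠ 0 → X ⊆ Y ∨ Y ⊆ X ∨ Disjoint X Y
  tr : ∀ X, y X ≠ 0 → ((cut a b (univ \ K) X).card : ℝ) ≤ C * k

/-- Central sets: many edges of `K` on both sides. -/
def Cen (a b : E → V) (K : Finset E) (ρ : ℝ) (X : Finset V) : Prop :=
  ρ ≤ dg a b K X ∧ ρ ≤ dg a b K Xᶜ

lemma cut_card_ix (a b : E → V) (M : Finset E) (X : Finset V) :
    ((cut a b M X).card : ℝ) = ∑ e ∈ M, ix a b e X := by
  have h := sum_ix a b M X (fun _ => 1)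
  simp only [sum_const, nsmul_eq_mul, mul_one, one_mul] at h
  exact h

lemma cut_split (a b : E → V) (K : Finset E) (X : Finset V) :
    (cut a b univ X).card = (cut a b (univ \ K) X).card + (cut a b K X).card := by
  rw [← card_union_of_disjoint]
  · congr 1
    ext e
    simp only [mem_union, mem_cut, mem_sdiff, mem_univ, true_and]
    tauto
  · rw [disjoint_left]
    intro e he he2
    rw [mem_cut, mem_sdiff] at he
    rw [mem_cut] at he2
    exact he.1.2 he2.1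

lemma not_cen {k : ℕ} {a b : E → V} (hOC : OC k a b) {K : Finset E} {ρ : ℝ} {X : Finset V}
    (hX : Odd (cut a b univ X).card) (h : ¬ Cen a b K ρ X) :
    (k : ℝ) - ρ ≤ (cut a b (univ \ K) X).card := by
  have h1 : ((cut a b K X).card : ℝ) < ρ := by
    unfold Cen at h
    rw [not_and_or, not_le, not_le] at h
    rcases h with h | h
    · exact lt_of_le_of_lt (cut_le_dg _ _ _ _) h
    · rw [← cut_compl]
      exact lt_of_le_of_lt (cut_le_dg _ _ _ _) h
  have h2 := hOC X hX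
  rw [cut_split a b K X] at h2
  have h3 : (k : ℝ) ≤ (cut a b (univ \ K) X).card + (cut a b K X).card := by exact_mod_cast h2
  linarith

lemma pot_sum (a b : E → V) (k : ℕ) (θ : ℝ) (X : Finset V) :
    pot a b k θ X = ∑ v ∈ X, pot a b k θ {v} := by
  unfold pot
  rw [sum_sub_distrib, ← sum_div, ← sum_div, ← mul_sum, ← mul_sum, dg_sum]
  congr 3
  unfold ov
  rw [card_filter]
  push_cast
  refine sum_congr rfl fun v _ => ?_
  rw [filter_singleton]
  split_ifs <;> simp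

lemma pot_union {a b : E → V} {k : ℕ} {θ : ℝ} {X Y : Finset V} (h : Disjoint X Y) :
    pot a b k θ (X ∪ Y) = pot a b k θ X + pot a b k θ Y := by
  rw [pot_sum, pot_sum a b k θ X, pot_sum a b k θ Y, sum_union h]

lemma pot_ge {k : ℕ} (hk : 0 < k) {a b : E → V} (hOC : OC k a b) {θ : ℝ} (hθ : 1 ≤ θ)
    (X : Finset V) : dg a b univ X / (2 * k) ≤ pot a b k θ X := by
  have h1 := ov_le hOC X
  have hk0 : (0 : ℝ) < k := by exact_mod_cast hk
  have h2 : (ov a b X : ℝ) / 2 ≤ dg a b univ X / (2 * k) := by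
    rw [div_le_div_iff₀ (by norm_num) (by positivity)]
    linarith
  unfold pot
  have h3 : θ * dg a b univ X / (2 * k) = θ * (dg a b univ X / (2 * k)) := by ring
  rw [h3]
  nlinarith

lemma pot_nn {k : ℕ} (hk : 0 < k) {a b : E → V} (hOC : OC k a b) {θ : ℝ} (hθ : 1 ≤ θ)
    (X : Finset V) : 0 ≤ pot a b k θ X :=
  le_trans (div_nonneg (dg_nn _ _ _ _) (by positivity)) (pot_ge hk hOC hθ X)

lemma sum_biUnion_dg (a b : E → V) (K : Finset E) (M : Finset (Finset V))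
    (hM : ∀ X ∈ M, ∀ Y ∈ M, X ≠ Y → Disjoint X Y) :
    dg a b K (M.biUnion id) = ∑ X ∈ M, dg a b K X := by
  rw [dg_sum, sum_biUnion (t := id) hM]
  exact sum_congr rfl fun X _ => (dg_sum _ _ _ _).symm

lemma sum_biUnion_pot (a b : E → V) (k : ℕ) (θ : ℝ) (M : Finset (Finset V))
    (hM : ∀ X ∈ M, ∀ Y ∈ M, X ≠ Y → Disjoint X Y) :
    pot a b k θ (M.biUnion id) = ∑ X ∈ M, pot a b k θ X := by
  rw [pot_sum, sum_biUnion (t := id) hM]
  exact sum_congr rfl fun X _ => (pot_sum _ _ _ _ _).symm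

/-- **Fat regions.** -/
lemma fat {a b : E → V} {K : Finset E} {r0 : V} {y : Finset V → ℝ} (hy : Pack a b K r0 y)
    {U : Finset V} {M 𝒴 : Finset (Finset V)} {s : ℝ}
    (h𝒴U : ∀ Y ∈ 𝒴, Y ⊆ U) (h𝒴M : ∀ Y ∈ 𝒴, ∀ X ∈ M, X ⊆ Y ∨ Disjoint X Y)
    (h𝒴s : ∀ Y ∈ 𝒴, s ≤ (cut a b (univ \ K) Y).card) :
    s * ∑ Y ∈ 𝒴, y Y ≤ (dg a b univ (U \ M.biUnion id) + (cut a b (univ \ K) U).card +
      ∑ X ∈ M, ((cut a b (univ \ K) X).card : ℝ)) / 2 := by
  classical
  have h1 : s * ∑ Y ∈ 𝒴, y Y ≤ ∑ e ∈ univ \ K, ∑ Y ∈ 𝒴, y Y * ix a b e Y := by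
    rw [sum_comm, mul_sum]
    refine sum_le_sum fun Y hY => ?_
    rw [← mul_sum, ← cut_card_ix, mul_comm]
    exact mul_le_mul_of_nonneg_left (h𝒴s Y hY) (hy.nn Y)
  refine h1.trans ?_
  have h2 : ∀ e ∈ univ \ K, ∑ Y ∈ 𝒴, y Y * ix a b e Y ≤
      (en a b e (U \ M.biUnion id) + ix a b e U + ∑ X ∈ M, ix a b e X) / 2 := by
    intro e he
    have heK : e ∉ K := (mem_sdiff.1 he).2
    have h0 : 0 ≤ (en a b e (U \ M.biUnion id) + ix a b e U + ∑ X ∈ M, ix a b e X) / 2 := by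
      have h1 := en_nn a b e (U \ M.biUnion id)
      have h2 := ix_nn a b e U
      have h3 : 0 ≤ ∑ X ∈ M, ix a b e X := sum_nonneg fun X _ => ix_nn a b e X
      linarith
    by_cases hex : ∃ Y ∈ 𝒴, ix a b e Y ≠ 0
    · obtain ⟨Y, hY, hYe⟩ := hex
      have hYe' : ¬ (a e ∈ Y ↔ b e ∈ Y) := by
        intro h
        apply hYe
        unfold ix
        rw [if_pos h]
      have hload : ∑ Y ∈ 𝒴, y Y * ix a b e Y ≤ 1 :=
        (sum_le_sum_of_subset_of_nonneg (subset_univ _) fun Z _ _ =>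
          mul_nonneg (hy.nn Z) (ix_nn a b e Z)).trans (hy.load e heK)
      refine hload.trans ?_
      have hU : a e ∈ U ∨ b e ∈ U := by
        by_contra hcon
        push Not at hcon
        apply hYe'
        exact ⟨fun h => absurd (h𝒴U Y hY h) hcon.1, fun h => absurd (h𝒴U Y hY h) hcon.2⟩
      have hMX : ∀ X ∈ M, ¬ (a e ∈ X ∧ b e ∈ X) := by
        intro X hX h
        apply hYe'
        rcases h𝒴M Y hY X hX with h3 | h3
        · exact ⟨fun _ => h3 h.2, fun _ => h3 h.1⟩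
        · rw [disjoint_left] at h3
          exact ⟨fun h4 => absurd h4 (h3 h.1), fun h4 => absurd h4 (h3 h.2)⟩
      have hix : ∀ X ∈ M, ix a b e X = (if a e ∈ X then 1 else 0) + (if b e ∈ X then 1 else 0) := by
        intro X hX
        have := hMX X hX
        unfold ix
        by_cases g1 : a e ∈ X <;> by_cases g2 : b e ∈ X <;> simp_all
      have hsum : ∀ u : V, (if u ∈ M.biUnion id then (1 : ℝ) else 0) ≤
          ∑ X ∈ M, (if u ∈ X then 1 else 0) := by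
        intro u
        split_ifs with hu
        · rw [mem_biUnion] at hu
          obtain ⟨X, hX, huX⟩ := hu
          have h4 : (if u ∈ X then (1 : ℝ) else 0) ≤ ∑ X ∈ M, (if u ∈ X then 1 else 0) :=
            single_le_sum (f := fun X : Finset V => if u ∈ X then (1 : ℝ) else 0)
              (fun X _ => by split_ifs <;> norm_num) hX
          rw [if_pos (show u ∈ X from huX)] at h4
          exact h4
        · exact sum_nonneg fun X _ => by split_ifs <;> norm_num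
      rw [sum_congr rfl hix, sum_add_distrib]
      have h5 := hsum (a e)
      have h6 := hsum (b e)
      unfold en ix
      simp only [mem_sdiff]
      by_cases g1 : a e ∈ U <;> by_cases g2 : b e ∈ U <;>
        by_cases g3 : a e ∈ M.biUnion id <;> by_cases g4 : b e ∈ M.biUnion id <;>
        simp only [g1, g2, g3, g4, if_true, if_false, not_true, not_false_eq_true, and_true,
          and_false, iff_true, iff_false] at h5 h6 hU ⊢ <;>
        first
          | linarith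
          | exact absurd hU (by simp)
    · push Not at hex
      have : ∑ Y ∈ 𝒴, y Y * ix a b e Y = 0 := sum_eq_zero fun Y hY => by rw [hex Y hY, mul_zero]
      rw [this]
      exact h0
  refine (sum_le_sum h2).trans ?_
  rw [← sum_div, sum_add_distrib, sum_add_distrib, ← cut_card_ix, sum_comm]
  have h3 : ∑ e ∈ univ \ K, en a b e (U \ M.biUnion id) ≤ dg a b univ (U \ M.biUnion id) :=
    sum_le_sum_of_subset_of_nonneg (subset_univ _) fun e _ _ => en_nn _ _ _ _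
  have h4 : ∑ X ∈ M, ∑ e ∈ univ \ K, ix a b e X = ∑ X ∈ M, ((cut a b (univ \ K) X).card : ℝ) :=
    sum_congr rfl fun X _ => (cut_card_ix _ _ _ _).symm
  rw [h4]
  linarith

/-- **Decomposition lemma.** -/
lemma decomp {k : ℕ} (hk : 0 < k) {a b : E → V} (hOC : OC k a b) {K : Finset E} {r0 : V}
    {C ρ θ κ : ℝ} {y : Finset V → ℝ} (hy : Lam a b K r0 k C y)
    (hθ : 1 ≤ θ) (hκ2 : κ ≤ 2) (hκ : (k : ℝ) ≤ κ * (k - ρ)) (hρk : ρ < k)
    {U : Finset V} {𝒟 : Finset (Finset V)} (h𝒟 : ∀ Y ∈ 𝒟, y Y ≠ 0) (h𝒟U : ∀ Y ∈ 𝒟, Y ⊆ U) :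
    ∃ M : Finset (Finset V), (∀ X ∈ M, X ∈ 𝒟 ∧ Cen a b K ρ X) ∧
      (∀ X ∈ M, ∀ Y ∈ M, X ≠ Y → Disjoint X Y) ∧
      ∑ Y ∈ 𝒟, y Y ≤ ∑ X ∈ M, ∑ Y ∈ X.powerset, y Y + κ * pot a b k θ (U \ M.biUnion id) +
        (cut a b (univ \ K) U).card / k + M.card * C := by
  classical
  have hk0 : (0 : ℝ) < k := by exact_mod_cast hk
  set 𝒞 : Finset (Finset V) := 𝒟.filter fun X => Cen a b K ρ X with h𝒞
  set M : Finset (Finset V) := 𝒞.filter fun X => ∀ Z ∈ 𝒞, X ⊆ Z → X = Z with hM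
  have hM𝒞 : ∀ X ∈ M, X ∈ 𝒞 := fun X hX => (mem_filter.1 hX).1
  have hMmax : ∀ X ∈ M, ∀ Z ∈ 𝒞, X ⊆ Z → X = Z := fun X hX => (mem_filter.1 hX).2
  have hdisj : ∀ X ∈ M, ∀ Y ∈ M, X ≠ Y → Disjoint X Y := by
    intro X hX Y hY hne
    have hX1 := mem_filter.1 (hM𝒞 X hX)
    have hY1 := mem_filter.1 (hM𝒞 Y hY)
    rcases hy.lam X Y (h𝒟 X hX1.1) (h𝒟 Y hY1.1) with h | h | h
    · exact absurd (hMmax X hX Y (hM𝒞 Y hY) h) hne
    · exact absurd (hMmax Y hY X (hM𝒞 X hX) h).symm hne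
    · exact h
  have hup : ∀ Y ∈ 𝒞, ∃ X ∈ M, Y ⊆ X := by
    intro Y hY
    obtain ⟨X, hX, hXmax⟩ := exists_max_image (𝒞.filter fun X => Y ⊆ X) card
      ⟨Y, mem_filter.2 ⟨hY, Subset.refl Y⟩⟩
    rw [mem_filter] at hX
    refine ⟨X, mem_filter.2 ⟨hX.1, fun Z hZ hXZ => ?_⟩, hX.2⟩
    have := hXmax Z (mem_filter.2 ⟨hZ, hX.2.trans hXZ⟩)
    exact eq_of_subset_of_card_le hXZ this
  refine ⟨M, fun X hX => mem_filter.1 (hM𝒞 X hX), hdisj, ?_⟩
  set 𝒴 : Finset (Finset V) := 𝒟.filter fun Y => ∀ X ∈ M, ¬ Y ⊆ X with h𝒴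
  have hsplit : ∑ Y ∈ 𝒟, y Y ≤ ∑ X ∈ M, ∑ Y ∈ X.powerset, y Y + ∑ Y ∈ 𝒴, y Y := by
    have h1 : ∀ Y ∈ 𝒟, y Y ≤ (∑ X ∈ M, if Y ⊆ X then y Y else 0) +
        (if ∀ X ∈ M, ¬ Y ⊆ X then y Y else 0) := by
      intro Y _
      by_cases h2 : ∀ X ∈ M, ¬ Y ⊆ X
      · rw [if_pos h2]
        have : 0 ≤ ∑ X ∈ M, if Y ⊆ X then y Y else 0 :=
          sum_nonneg fun X _ => by split_ifs; exacts [hy.pack.nn Y, le_rfl]
        linarith
      · rw [if_neg h2]
        push Not at h2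
        obtain ⟨X, hX, hYX⟩ := h2
        have h3 : (if Y ⊆ X then y Y else 0) ≤ ∑ X ∈ M, if Y ⊆ X then y Y else 0 :=
          single_le_sum (f := fun X : Finset V => if Y ⊆ X then y Y else 0)
            (fun X _ => by
              show (0 : ℝ) ≤ if Y ⊆ X then y Y else 0
              split_ifs; exacts [hy.pack.nn Y, le_rfl]) hX
        rw [if_pos hYX] at h3
        linarith
    refine (sum_le_sum h1).trans ?_
    rw [sum_add_distrib, sum_comm, ← sum_filter]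
    have h2 : ∀ X ∈ M, ∑ Y ∈ 𝒟, (if Y ⊆ X then y Y else 0) ≤ ∑ Y ∈ X.powerset, y Y := by
      intro X _
      rw [← sum_filter]
      refine sum_le_sum_of_subset_of_nonneg ?_ fun Y _ _ => hy.pack.nn Y
      intro Y hY
      rw [mem_powerset]
      exact (mem_filter.1 hY).2
    have h3 := sum_le_sum h2
    linarith
  have hfat := fat hy.pack (U := U) (M := M) (𝒴 := 𝒴) (s := (k : ℝ) - ρ)
    (fun Y hY => h𝒟U Y (mem_filter.1 hY).1)
    (fun Y hY X hX => by
      have hY1 := mem_filter.1 hY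
      have hX1 := mem_filter.1 (hM𝒞 X hX)
      rcases hy.lam X Y (h𝒟 X hX1.1) (h𝒟 Y hY1.1) with h | h | h
      · exact Or.inl h
      · exact absurd h (hY1.2 X hX)
      · exact Or.inr h)
    (fun Y hY => by
      have hY1 := mem_filter.1 hY
      refine not_cen hOC (hy.pack.supp Y (h𝒟 Y hY1.1)).1 fun hc => ?_
      obtain ⟨X, hX, hYX⟩ := hup Y (mem_filter.2 ⟨hY1.1, hc⟩)
      exact hY1.2 X hX hYX)
  have hM1 : ∑ X ∈ M, ((cut a b (univ \ K) X).card : ℝ) ≤ M.card * (C * k) := by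
    rw [← nsmul_eq_mul, ← sum_const]
    exact sum_le_sum fun X hX => hy.tr X (h𝒟 X (mem_filter.1 (hM𝒞 X hX)).1)
  have hpot := pot_ge hk hOC hθ (U \ M.biUnion id)
  have hY0 : 0 ≤ ∑ Y ∈ 𝒴, y Y := sum_nonneg fun Y _ => hy.pack.nn Y
  set sY := ∑ Y ∈ 𝒴, y Y
  set R := U \ M.biUnion id
  set g := dg a b univ R with hg
  set u : ℝ := ((cut a b (univ \ K) U).card : ℝ) with hu
  have hg0 : 0 ≤ g := dg_nn _ _ _ _
  have hu0 : 0 ≤ u := by positivity
  have hκ0 : 0 ≤ κ := by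
    by_contra h
    push Not at h
    have : κ * (k - ρ) < 0 := mul_neg_of_neg_of_pos h (by linarith)
    linarith
  have h1 : (k : ℝ) * sY ≤ κ * ((g + u + M.card * (C * k)) / 2) := by
    calc (k : ℝ) * sY ≤ κ * (k - ρ) * sY := mul_le_mul_of_nonneg_right hκ hY0
      _ = κ * ((k - ρ) * sY) := by ring
      _ ≤ _ := mul_le_mul_of_nonneg_left (hfat.trans (by linarith)) hκ0
  have hM0 : 0 ≤ M.card * (C * k) := le_trans (sum_nonneg fun X _ => by positivity) hM1
  have h2 : sY ≤ κ * pot a b k θ R + u / k + M.card * C := by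
    have h3 : (k : ℝ) * sY ≤ k * (κ * pot a b k θ R + u / k + M.card * C) := by
      have h4 : (k : ℝ) * (κ * pot a b k θ R + u / k + M.card * C) =
          κ * (k * pot a b k θ R) + u + M.card * (C * k) := by
        field_simp
      rw [h4]
      have h5 : g / 2 ≤ k * pot a b k θ R := by
        have h6 : (k : ℝ) * (g / (2 * k)) = g / 2 := by field_simp
        rw [← h6]
        exact mul_le_mul_of_nonneg_left hpot hk0.le
      have h7 : κ * (g / 2) ≤ κ * (k * pot a b k θ R) := mul_le_mul_of_nonneg_left h5 hκ0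
      nlinarith
    exact le_of_mul_le_mul_left h3 hk0
  linarith

end Pool.Agent.Lib.MP_d47134_co
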