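import Pool.Agent.Lib.MP_d47134_co.Reg.Ind
import Pool.Agent.Lib.MP_d47134_co.Asy.Conn2

/-!
# Short two-even covers of regular multigraphs: the final statement for finsets
-/

set_option autoImplicit false
set_option linter.unusedSectionVars false

namespace Pool.Agent.Lib.MP_d47134_co

open Finset

variable {V E : Type} [Fintype V] [DecidableEq V] [Fintype E] [DecidableEq E]

lemma isJoin_of_deg {a b : E → V} {J : Finset E}
    (h : ∀ v, (((cut a b J {v}).card : ℕ) : ZMod 2) = ((cut a b univ {v}).card : ZMod 2)) :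
    IsJoin a b J := by
  intro X
  rw [parity, parity]
  exact sum_congr rfl fun v _ => h v

lemma IsJoin.meets {a b : E → V} {K : Finset E} (hK : IsJoin a b K) {J : Finset E}
    (hJ : Disjoint J K) (X : Finset V) (hX : Odd (cut a b univ X).card) :
    ¬ cut a b univ X ⊆ J := by
  intro h
  have h1 : Odd (cut a b K X).card := by
    rw [cast_odd] at hX ⊢
    rw [hK X]; exact hX
  obtain ⟨e, he⟩ := card_pos.1 h1.pos
  rw [mem_cut] at he
  exact disjoint_left.1 hJ (h (mem_cut.2 ⟨mem_univ _, he.2⟩)) he.1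

/-- Covers from two disjoint parity joins. -/
theorem cover_of_joins {a b : E → V} {J K : Finset E} (hJ : IsJoin a b J) (hK : IsJoin a b K)
    (hd : Disjoint J K) :
    ∃ A B : Finset E, A ∪ B = univ ∧ (∀ v, Even (cut a b A {v}).card) ∧
      (∀ v, Even (cut a b B {v}).card) ∧ A.card + B.card = Fintype.card E + J.card := by
  classical
  have hev : ∀ n : ℕ, Even n ↔ (n : ZMod 2) = 0 := fun n => ZMod.natCast_eq_zero_iff_even.symm
  have h11 : ∀ z : ZMod 2, z + z = 0 := by decide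
  have hsplit : ∀ (M N : Finset E) (v : V), Disjoint M N →
      (((cut a b (M ∪ N) {v}).card : ℕ) : ZMod 2) =
        (cut a b M {v}).card + (cut a b N {v}).card := by
    intro M N v hMN
    rw [par, par, par, sum_union hMN]
  refine ⟨K ∪ J, univ \ K, ?_, ?_, ?_, ?_⟩
  · ext e
    simp only [mem_union, mem_sdiff, mem_univ, true_and, iff_true]
    tauto
  · intro v
    rw [hev, hsplit _ _ _ hd.symm, hK, hJ, h11]
  · intro v
    rw [hev]
    have h2 := hsplit K (univ \ K) v disjoint_sdiff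
    rw [union_sdiff_of_subset (subset_univ K), hK] at h2
    have h3 : ∀ y z : ZMod 2, y = y + z → z = 0 := by decide
    exact h3 _ _ h2
  · have h2 : (K ∪ J).card = K.card + J.card := card_union_of_disjoint hd.symm
    have h3 : (univ \ K).card + K.card = Fintype.card E := by
      rw [card_sdiff_add_card_eq_card (subset_univ K), card_univ]
    omega

/-- A small parity join which leaves `(k - 3) / 2` edges in every odd cut. -/
lemma exists_small_join {k : ℕ} (hk : Odd k) (hk5 : 5 ≤ k) {a b : E → V} (hOC : OC k a b) :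
    ∃ K : Finset E, IsJoin a b K ∧ (k - 1) * K.card ≤ 2 * Fintype.card E ∧
      ∀ X, Odd (cut a b univ X).card → (k - 3) / 2 ≤ (cut a b (univ \ K) X).card := by
  classical
  set h := (k - 1) / 2 with hh
  have hkh : k = 2 * h + 1 := by
    obtain ⟨c, hc⟩ := hk
    omega
  obtain ⟨F, hF1, hF2⟩ := Asy.conn_pack (h := h) hk (by omega) (by omega) _ a b hOC
    (Nat.lt_succ_self _)
  have hne : (univ : Finset (Fin h)).Nonempty := ⟨⟨0, by omega⟩, mem_univ _⟩
  obtain ⟨i0, -, hi0⟩ := exists_min_image univ (fun i => (F i).card) hne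
  have hsum : h * (F i0).card ≤ Fintype.card E := by
    have h1 : ∑ i, (F i).card ≤ Fintype.card E := by
      rw [← card_biUnion (fun i _ j _ hij => hF1 i j hij)]
      exact card_le_univ _
    have h2 : ∑ i : Fin h, (F i0).card ≤ ∑ i, (F i).card :=
      sum_le_sum fun i _ => hi0 i (mem_univ i)
    rw [sum_const, card_univ, Fintype.card_fin, smul_eq_mul] at h2
    omega
  obtain ⟨K, hK1, hK2⟩ := exists_join (a := a) (b := b) (J := univ \ F i0) (by
    intro X hX hsub
    obtain ⟨e, he⟩ := hF2 i0 X hX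
    rw [mem_cut] at he
    have h1 := hsub (mem_cut.2 ⟨mem_univ _, he.2⟩)
    rw [mem_sdiff] at h1
    exact h1.2 he.1)
  have hKF : K ⊆ F i0 := by
    intro e he
    by_contra h1
    exact disjoint_left.1 hK1 he (mem_sdiff.2 ⟨mem_univ _, h1⟩)
  refine ⟨K, isJoin_of_deg hK2, ?_, ?_⟩
  · have h1 : K.card ≤ (F i0).card := card_le_card hKF
    have h2 : h * K.card ≤ Fintype.card E := (Nat.mul_le_mul_left h h1).trans hsum
    have h3 : k - 1 = 2 * h := by omega
    rw [h3]
    nlinarith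
  · intro X hX
    choose e he using fun i => hF2 i X hX
    have h1 : (univ.erase i0 : Finset (Fin h)).card ≤ (cut a b (univ \ K) X).card := by
      refine card_le_card_of_injOn e ?_ ?_
      · intro i hi
        rw [mem_coe, mem_erase] at hi
        have h2 := mem_cut.1 (he i)
        rw [mem_coe, mem_cut, mem_sdiff]
        refine ⟨⟨mem_univ _, fun h3 => ?_⟩, h2.2⟩
        exact disjoint_left.1 (hF1 i i0 hi.1) h2.1 (hKF h3)
      · intro i _ j _ hij
        by_contra hne
        have h2 := (mem_cut.1 (he i)).1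
        have h3 := (mem_cut.1 (he j)).1
        rw [hij] at h2
        exact disjoint_left.1 (hF1 i j hne) h2 h3
    rw [card_erase_of_mem (mem_univ _), card_univ, Fintype.card_fin] at h1
    omega

/-- The truncation of a laminar packing. -/
lemma truncate {k : ℕ} (hk : 0 < k) {a b : E → V} {K : Finset E} {r0 : V} {C t : ℝ} (hC : 0 < C)
    {y : Finset V → ℝ} (hy : Pack a b K r0 y) (hsum : ∑ X, y X = t)
    (hlam : ∀ X Y, y X ≠ 0 → y Y ≠ 0 → X ⊆ Y ∨ Y ⊆ X ∨ Disjoint X Y) :
    ∃ y', Lam a b K r0 k C y' ∧ t ≤ ∑ X, y' X + Fintype.card E / (C * k) := by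
  classical
  have hk0 : (0 : ℝ) < k := by exact_mod_cast hk
  let P : Finset V → Prop := fun X => ((cut a b (univ \ K) X).card : ℝ) ≤ C * k
  let y' : Finset V → ℝ := fun X => if P X then y X else 0
  have hne : ∀ X, y' X ≠ 0 → P X ∧ y X ≠ 0 := by
    intro X hX
    by_cases h : P X
    · simp only [y', if_pos h] at hX; exact ⟨h, hX⟩
    · simp only [y', if_neg h] at hX; exact absurd rfl hX
  have hle : ∀ X, y' X ≤ y X := by
    intro X
    simp only [y']
    split_ifs
    · exact le_rfl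
    · exact hy.nn X
  refine ⟨y', ⟨⟨fun X => ?_, fun X hX => hy.supp X (hne X hX).2, fun e he => ?_⟩,
    fun X Y hX hY => hlam X Y (hne X hX).2 (hne Y hY).2, fun X hX => (hne X hX).1⟩, ?_⟩
  · simp only [y']
    split_ifs
    · exact hy.nn X
    · exact le_rfl
  · exact (sum_le_sum fun X _ => mul_le_mul_of_nonneg_right (hle X) (ix_nn a b e X)).trans
      (hy.load e he)
  · have h1 : ∑ X, (y X - y' X) ≤ Fintype.card E / (C * k) := by
      rw [le_div_iff₀ (by positivity), sum_mul]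
      calc ∑ X, (y X - y' X) * (C * k) ≤ ∑ X, ∑ e ∈ univ \ K, y X * ix a b e X := by
            refine sum_le_sum fun X _ => ?_
            rw [← mul_sum, ← cut_card_ix]
            by_cases h : P X
            · simp only [y', if_pos h, sub_self, zero_mul]
              exact mul_nonneg (hy.nn X) (by positivity)
            · simp only [y', if_neg h, sub_zero]
              exact mul_le_mul_of_nonneg_left (not_le.1 h).le (hy.nn X)
        _ = ∑ e ∈ univ \ K, ∑ X, y X * ix a b e X := sum_comm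
        _ ≤ ∑ e ∈ univ \ K, 1 := by
            refine sum_le_sum fun e he => hy.load e (mem_sdiff.1 he).2
        _ ≤ Fintype.card E := by
            rw [sum_const, nsmul_eq_mul, mul_one]
            exact_mod_cast card_le_univ _
    rw [sum_sub_distrib, hsum] at h1
    linarith

/-- **Main bound**, all parameters. -/
theorem main_bound {k : ℕ} (hk : Odd k) (hk5 : 5 ≤ k) {a b : E → V} (hOC : OC k a b)
    {C ρ θ κ η : ℝ} (hθ1 : 1 ≤ θ) (hθ : θ * (k - ρ - ((k + 5 : ℕ) / 2 : ℕ)) = k) (hρ0 : 0 < ρ)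
    (hκ1 : 1 ≤ κ) (hκ2 : κ ≤ 2) (hκ : (k : ℝ) ≤ κ * (k - ρ)) (hC0 : 0 < C) (hη : 0 ≤ η)
    (hηρ : 2 * (θ * C + 1) + 4 * C ≤ η * ρ) :
    ∃ J K : Finset E, IsJoin a b J ∧ IsJoin a b K ∧ Disjoint J K ∧
      (k - 1) * K.card ≤ 2 * Fintype.card E ∧
      (J.card : ℝ) ≤ Fintype.card E / (C * k) + κ * pot a b k θ univ + 2 * η * K.card := by
  classical
  obtain ⟨K, hK, hKc, hcon⟩ := exists_small_join hk hk5 hOC
  have hne : ∀ X, Odd (cut a b univ X).card → (cut a b (univ \ K) X).Nonempty := by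
    intro X hX
    rw [← card_pos]
    have := hcon X hX
    omega
  obtain ⟨J1, hJ1, hJ1d⟩ := exists_join (a := a) (b := b) (J := K) (by
    intro X hX hsub
    obtain ⟨e, he⟩ := hne X hX
    rw [mem_cut, mem_sdiff] at he
    exact he.1.2 (hsub (mem_cut.2 ⟨mem_univ _, he.2⟩)))
  obtain ⟨J, hJ, hJmin⟩ := exists_min_image
    (univ.filter fun J : Finset E => IsJoin a b J ∧ Disjoint J K) card
    ⟨J1, mem_filter.2 ⟨mem_univ _, isJoin_of_deg hJ1d, hJ1⟩⟩
  rw [mem_filter] at hJ
  refine ⟨J, K, hJ.2.1, hK, hJ.2.2, hKc, ?_⟩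
  set R : ℝ := Fintype.card E / (C * k) + κ * pot a b k θ univ + 2 * η * K.card with hR
  have hk0' : 0 < k := by omega
  have hR0 : 0 ≤ R := by
    have h1 := pot_nn hk0' hOC hθ1 (univ : Finset V)
    positivity
  by_contra hcontra
  push Not at hcontra
  obtain ⟨t, ht1, ht2⟩ := exists_between hcontra
  have ht0 : 0 < t := lt_of_le_of_lt hR0 ht1
  have hN : ∀ J', IsJoin a b J' → Disjoint J' K → J.card ≤ J'.card := fun J' h1 h2 =>
    hJmin J' (mem_filter.2 ⟨mem_univ _, h1, h2⟩)
  -- a vertex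
  have hE : (univ : Finset E).Nonempty := by
    have h1 : (0 : ℝ) < J.card := ht0.trans ht2
    have h2 : 0 < J.card := by exact_mod_cast h1
    obtain ⟨e, _⟩ := card_pos.1 h2
    exact ⟨e, mem_univ e⟩
  obtain ⟨e0, -⟩ := hE
  set r0 : V := a e0
  obtain ⟨y, hy, hysum, hylam⟩ := exists_laminar (exists_pack r0 hN hne ht0 ht2)
  obtain ⟨y', hy', ht'⟩ := truncate hk0' hC0 hy hysum hylam
  have htb := total_bound hk (by omega) hOC (g := (k - 3) / 2) (f := (k + 5) / 2) (K := K)
    (by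
      obtain ⟨c, hc⟩ := hk
      omega) (by omega) hcon hy' hθ1 hθ hρ0 hκ1 hκ2 hκ hC0.le hη hηρ
  linarith

lemma pot_univ {k : ℕ} (hk : 0 < k) (a b : E → V) (θ : ℝ) :
    pot a b k θ univ = θ * (Fintype.card E / k) - (θ - 1) * (ov a b univ / 2) := by
  have hk0 : (k : ℝ) ≠ 0 := by exact_mod_cast hk.ne'
  unfold pot
  rw [dg_univ, card_univ]
  field_simp

/-- The bound for odd `k`. -/
theorem joins_odd {k : ℕ} (hk : Odd k) (hk5 : 5 ≤ k) {a b : E → V} (hOC : OC k a b)
    {s : ℝ} (hs0 : 0 < s) (hs : s ^ 3 = k) :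
    ∃ J K : Finset E, IsJoin a b J ∧ IsJoin a b K ∧ Disjoint J K ∧
      (J.card : ℝ) ≤ 2 * (Fintype.card E / k) - ov a b univ / 2 +
        20 / s * (Fintype.card E / k) := by
  classical
  have hk0' : 0 < k := by omega
  have hk0 : (0 : ℝ) < k := by exact_mod_cast hk0'
  have hk5' : (5 : ℝ) ≤ k := by exact_mod_cast hk5
  have hT : (ov a b univ : ℝ) / 2 ≤ Fintype.card E / k := by
    have h1 := ov_le hOC univ
    rw [dg_univ, card_univ] at h1
    rw [div_le_div_iff₀ (by norm_num) hk0]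
    linarith
  set T : ℝ := (ov a b univ : ℝ) / 2 with hTdef
  have hT0 : 0 ≤ T := by positivity
  set q : ℝ := (Fintype.card E : ℝ) / k with hq
  have hq0 : 0 ≤ q := by positivity
  have hmq : (Fintype.card E : ℝ) = k * q := by rw [hq]; field_simp
  rcases lt_or_ge s 18 with hs18 | hs18
  · obtain ⟨J, hJ, hJc, hcon⟩ := exists_small_join hk hk5 hOC
    obtain ⟨K, hK1, hK2⟩ := exists_join (a := a) (b := b) (J := J) (by
      intro X hX hsub
      have h1 := hcon X hX
      obtain ⟨e, he⟩ := card_pos.1 (show 0 < (cut a b (univ \ J) X).card by omega)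
      rw [mem_cut, mem_sdiff] at he
      exact he.1.2 (hsub (mem_cut.2 ⟨mem_univ _, he.2⟩)))
    refine ⟨J, K, hJ, isJoin_of_deg hK2, hK1.symm, ?_⟩
    have h1 : ((k : ℝ) - 1) * J.card ≤ 2 * (k * q) := by
      rw [← hmq]
      have h2 : ((k - 1 : ℕ) : ℝ) = (k : ℝ) - 1 := by
        rw [Nat.cast_sub (by omega)]; norm_num
      rw [← h2]
      exact_mod_cast hJc
    have hs1 : 1.7 < s := by
      by_contra h
      push Not at h
      have : s ^ 3 ≤ 1.7 ^ 3 := pow_le_pow_left₀ hs0.le h 3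
      rw [hs] at this
      norm_num at this
      linarith
    have h2 : s * (k + 1) ≤ 20 * (k - 1) := by
      rw [← hs]
      have h3 : 0 < s ^ 3 := by positivity
      rcases lt_or_ge s 10 with h10 | h10
      · nlinarith
      · have h4 : (10 : ℝ) ^ 3 ≤ s ^ 3 := pow_le_pow_left₀ (by norm_num) h10 3
        nlinarith
    have h3 : 2 * k / (k - 1) ≤ 1 + 20 / s := by
      have hk1 : (0 : ℝ) < k - 1 := by linarith
      rw [div_le_iff₀ hk1]
      have h4 : (1 + 20 / s) * ((k : ℝ) - 1) = (k - 1) + 20 * (k - 1) / s := by ring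
      rw [h4]
      have h5 : (k : ℝ) + 1 ≤ 20 * (k - 1) / s := by
        rw [le_div_iff₀ hs0]; linarith
      linarith
    have h4 : (J.card : ℝ) ≤ 2 * k / (k - 1) * q := by
      have hk1 : (0 : ℝ) < k - 1 := by linarith
      rw [div_mul_eq_mul_div, le_div_iff₀ hk1]
      linarith
    have h5 : 2 * k / (k - 1) * q ≤ (1 + 20 / s) * q := mul_le_mul_of_nonneg_right h3 hq0
    linarith
  · have hf : (((k + 5 : ℕ) / 2 : ℕ) : ℝ) = (s ^ 3 + 5) / 2 := by
      rw [hs]
      obtain ⟨c, hc⟩ := hk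
      have h1 : (k + 5) / 2 = c + 3 := by omega
      rw [h1, hc]
      push_cast
      ring
    have hs2 : 0 < s ^ 2 := by positivity
    have hD : 0 < s ^ 3 - s ^ 2 - (s ^ 3 + 5) / 2 := by nlinarith
    set D : ℝ := s ^ 3 - s ^ 2 - (s ^ 3 + 5) / 2 with hDdef
    have hθ2 : 2 ≤ s ^ 3 / D := by
      rw [le_div_iff₀ hD, hDdef]
      nlinarith
    have hθhi : s ^ 3 / D ≤ 2 + 4.6 / s := by
      rw [div_le_iff₀ hD]
      have h1 : s * s ^ 3 ≤ s * ((2 + 4.6 / s) * D) := by
        have h2 : s * ((2 + 4.6 / s) * D) = (2 * s + 4.6) * D := by field_simp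
        rw [h2, hDdef]
        nlinarith
      exact le_of_mul_le_mul_left h1 hs0
    have hκ1 : 1 ≤ s / (s - 1) := by
      rw [le_div_iff₀ (by linarith)]; linarith
    have hκhi : s / (s - 1) ≤ 1 + 1.06 / s := by
      rw [div_le_iff₀ (by linarith)]
      have h1 : s * s ≤ s * ((1 + 1.06 / s) * (s - 1)) := by
        have h2 : s * ((1 + 1.06 / s) * (s - 1)) = (s + 1.06) * (s - 1) := by field_simp
        rw [h2]; nlinarith
      exact le_of_mul_le_mul_left h1 hs0
    have hu : 1 / s ≤ 1 / 18 := one_div_le_one_div_of_le (by norm_num) hs18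
    have hu0 : 0 < 1 / s := by positivity
    set u : ℝ := 1 / s with hu'
    have hdiv : ∀ c : ℝ, c / s = c * u := fun c => by rw [hu']; ring
    rw [hdiv] at hθhi hκhi
    set θ : ℝ := s ^ 3 / D with hθdef
    set κ : ℝ := s / (s - 1) with hκdef
    obtain ⟨J, K, hJ, hK, hJK, hKc, hJc⟩ := main_bound hk hk5 hOC (C := s / 6) (ρ := s ^ 2)
      (θ := θ) (κ := κ) (η := 1.53 * u) (by linarith)
      (by
        rw [hf, ← hs, ← hDdef, hθdef]
        field_simp)
      hs2 hκ1 (by linarith)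
      (by
        rw [← hs, hκdef]
        have h1 : s - 1 ≠ 0 := by linarith
        have h2 : s / (s - 1) * (s ^ 3 - s ^ 2) = s ^ 3 := by
          field_simp
        rw [h2])
      (by positivity) (by positivity)
      (by
        have h1 : 1.53 * u * s ^ 2 = 1.53 * s := by rw [hu']; field_simp
        rw [h1]
        nlinarith)
    refine ⟨J, K, hJ, hK, hJK, ?_⟩
    rw [pot_univ hk0', ← hq, ← hTdef] at hJc
    have h1 : (Fintype.card E : ℝ) / (s / 6 * k) = 6 * u * q := by
      rw [hq, hu']; field_simp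
    have h2 : ((k : ℝ) - 1) * K.card ≤ 2 * (k * q) := by
      rw [← hmq]
      have h2 : ((k - 1 : ℕ) : ℝ) = (k : ℝ) - 1 := by
        rw [Nat.cast_sub (by omega)]; norm_num
      rw [← h2]
      exact_mod_cast hKc
    have hk100 : (100 : ℝ) ≤ k := by
      have h4 : (18 : ℝ) ^ 3 ≤ s ^ 3 := pow_le_pow_left₀ (by norm_num) hs18 3
      rw [hs] at h4
      have h5 : (18 : ℝ) ^ 3 = 5832 := by norm_num
      linarith
    have h3 : 2 * 1.53 * (K.card : ℝ) ≤ 7 * q := by
      have h4 : (100 : ℝ) * K.card ≤ 100 * (2.1 * q) := by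
        have h5 : ((k : ℝ) - 1) * K.card ≤ (k - 1) * (2.1 * q) := by
          refine h2.trans ?_
          nlinarith
        have h6 : (K.card : ℝ) ≤ 2.1 * q := le_of_mul_le_mul_left h5 (by linarith)
        linarith
      linarith
    have h4 : κ * θ ≤ 2 + 7 * u := by
      calc κ * θ ≤ (1 + 1.06 * u) * (2 + 4.6 * u) :=
            mul_le_mul hκhi hθhi (by linarith) (by positivity)
        _ ≤ 2 + 7 * u := by nlinarith
    have h5 : 1 ≤ κ * (θ - 1) := by nlinarith
    have h6 : κ * (θ * q - (θ - 1) * T) ≤ (2 + 7 * u) * q - T := by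
      have h7 : κ * (θ * q - (θ - 1) * T) = κ * θ * q - κ * (θ - 1) * T := by ring
      rw [h7]
      have h8 := mul_le_mul_of_nonneg_right h4 hq0
      have h9 := mul_le_mul_of_nonneg_right h5 hT0
      linarith
    rw [h1] at hJc
    have h7 : 2 * (1.53 * u) * (K.card : ℝ) ≤ 7 * u * q := by
      have := mul_le_mul_of_nonneg_left h3 hu0.le
      linarith
    rw [hdiv]
    linarith

/-- **Short two-even covers**, the bound for multigraphs. -/
theorem reg_cover {k : ℕ} (hk : 4 ≤ k) {a b : E → V} (h : OC k a b) :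
    ∃ A B : Finset E, A ∪ B = univ ∧ (∀ v, Even (cut a b A {v}).card) ∧
      (∀ v, Even (cut a b B {v}).card) ∧
      (A.card + B.card : ℝ) ≤ (1 + 2 / k + 20 / (k : ℝ) ^ (4 / 3 : ℝ)) * Fintype.card E -
        ov a b univ / 2 := by
  classical
  obtain ⟨r, hr, hkr, hOC⟩ : ∃ r, Odd r ∧ k ≤ r ∧ OC r a b := by
    rcases Nat.even_or_odd k with hk2 | hk2
    · exact ⟨k + 1, hk2.add_one, by omega, oc_succ h hk2⟩
    · exact ⟨k, hk2, le_refl _, h⟩
  have hr5 : 5 ≤ r := by
    obtain ⟨c, hc⟩ := hr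
    omega
  have hk0 : (0 : ℝ) < k := by
    have : 0 < k := by omega
    exact_mod_cast this
  have hkr' : (k : ℝ) ≤ r := by exact_mod_cast hkr
  have hr0 : (0 : ℝ) < r := lt_of_lt_of_le hk0 hkr'
  set s : ℝ := (r : ℝ) ^ (1 / 3 : ℝ) with hs
  have hs0 : 0 < s := Real.rpow_pos_of_pos hr0 _
  have hs3 : s ^ 3 = r := by
    rw [hs, ← Real.rpow_natCast, ← Real.rpow_mul hr0.le]
    norm_num
  obtain ⟨J, K, hJ, hK, hJK, hJc⟩ := joins_odd hr hr5 hOC hs0 hs3
  obtain ⟨A, B, h1, h2, h3, h4⟩ := cover_of_joins hJ hK hJK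
  refine ⟨A, B, h1, h2, h3, ?_⟩
  have h5 : (A.card + B.card : ℝ) = Fintype.card E + J.card := by exact_mod_cast h4
  rw [h5]
  set m : ℝ := (Fintype.card E : ℝ) with hm
  have hm0 : 0 ≤ m := by positivity
  have h6 : m / r ≤ m / k := div_le_div_of_nonneg_left hm0 hk0 hkr'
  have h7 : (k : ℝ) ^ (4 / 3 : ℝ) ≤ r * s := by
    have h8 : (r : ℝ) * s = (r : ℝ) ^ (4 / 3 : ℝ) := by
      rw [hs]
      nth_rewrite 1 [← Real.rpow_one (r : ℝ)]
      rw [← Real.rpow_add hr0]
      norm_num
    rw [h8]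
    exact Real.rpow_le_rpow hk0.le hkr' (by norm_num)
  have h8 : 20 / s * (m / r) ≤ 20 / (k : ℝ) ^ (4 / 3 : ℝ) * m := by
    have h9 : 20 / s * (m / r) = 20 * m / (r * s) := by field_simp
    have h10 : 20 / (k : ℝ) ^ (4 / 3 : ℝ) * m = 20 * m / (k : ℝ) ^ (4 / 3 : ℝ) := by ring
    rw [h9, h10]
    exact div_le_div_of_nonneg_left (by positivity) (Real.rpow_pos_of_pos hk0 _) h7
  have h9 : (1 + 2 / (k : ℝ) + 20 / (k : ℝ) ^ (4 / 3 : ℝ)) * m =
      m + 2 * (m / k) + 20 / (k : ℝ) ^ (4 / 3 : ℝ) * m := by ring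
  rw [h9]
  linarith

end Pool.Agent.Lib.MP_d47134_co
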