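import Pool.Agent.Lib.MP_d47134_co.Reg.Fat

/-!
# The induction over central sets
-/

set_option autoImplicit false
set_option linter.unusedSectionVars false

namespace Pool.Agent.Lib.MP_d47134_co

open Finset

variable {V E : Type} [Fintype V] [DecidableEq V] [Fintype E] [DecidableEq E]

/-- The packing inside a window is small. -/
lemma window_sum {k g f : ℕ} (hk : Odd k) (hk3 : 3 ≤ k) {a b : E → V} (hOC : OC k a b)
    {K : Finset E} (hgf : k + 1 ≤ g + f) (hf : 1 ≤ f)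
    (hcon : ∀ X, Odd (cut a b univ X).card → g ≤ (cut a b (univ \ K) X).card) {r0 : V}
    {C ρ θ : ℝ} {y : Finset V → ℝ} (hy : Lam a b K r0 k C y)
    (hθ1 : 1 ≤ θ) (hθ : θ * (k - ρ - f) = k)
    {B D : Finset V} (hB : y B ≠ 0) (hD : y D ≠ 0) (hBD : B ⊆ D) (hρ : dg a b K (D \ B) ≤ ρ)
    {𝒲 : Finset (Finset V)} (h𝒲 : ∀ Y ∈ 𝒲, y Y ≠ 0 ∧ Y ⊆ D ∧ (B ⊆ Y ∨ Disjoint B Y)) :
    ∑ Y ∈ 𝒲, y Y ≤ pot a b k θ (D \ B) + (θ * C + 1) := by
  classical
  have hBo := hy.pack.supp B hB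
  have hDo := hy.pack.supp D hD
  have hBne : B.Nonempty := by
    rw [nonempty_iff_ne_empty]
    rintro rfl
    have h1 : cut a b univ (∅ : Finset V) = ∅ := by
      apply eq_empty_of_forall_notMem
      intro e he
      rw [mem_cut] at he
      simp at he
    rw [h1] at hBo
    simp at hBo
  obtain ⟨b0, hb0⟩ := hBne
  obtain ⟨J, hJK, hJ, hJc⟩ := window hk hk3 hOC hgf hf hcon hBD hb0 hDo.2 hBo.1 hDo.1
    (hy.tr B hB) (hy.tr D hD) hρ hθ1 hθ
  refine le_trans ?_ hJc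
  have h1 : ∀ Y ∈ 𝒲, y Y ≤ ∑ e ∈ J, y Y * ix a b e Y := by
    intro Y hY
    obtain ⟨h2, h3, h4⟩ := h𝒲 Y hY
    obtain ⟨e, he, heY⟩ := hJ Y (hy.pack.supp Y h2).1 h3 h4
    have h5 : y Y * ix a b e Y ≤ ∑ e ∈ J, y Y * ix a b e Y :=
      single_le_sum (f := fun e => y Y * ix a b e Y)
        (fun e _ => mul_nonneg (hy.pack.nn Y) (ix_nn a b e Y)) he
    have h6 : ix a b e Y = 1 := by
      unfold ix; rw [if_neg heY]
    rw [h6, mul_one] at h5
    exact h5
  refine (sum_le_sum h1).trans ?_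
  rw [sum_comm, card_eq_sum_ones]
  push_cast
  refine sum_le_sum fun e he => ?_
  exact (sum_le_sum_of_subset_of_nonneg (subset_univ _) fun Z _ _ =>
    mul_nonneg (hy.pack.nn Z) (ix_nn a b e Z)).trans
    (hy.pack.load e (disjoint_left.1 hJK he))

/-- **The induction.** -/
theorem central_bound {k g f : ℕ} (hk : Odd k) (hk3 : 3 ≤ k) {a b : E → V} (hOC : OC k a b)
    {K : Finset E} (hgf : k + 1 ≤ g + f) (hf : 1 ≤ f)
    (hcon : ∀ X, Odd (cut a b univ X).card → g ≤ (cut a b (univ \ K) X).card) {r0 : V}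
    {C ρ θ κ η : ℝ} {y : Finset V → ℝ} (hy : Lam a b K r0 k C y)
    (hθ1 : 1 ≤ θ) (hθ : θ * (k - ρ - f) = k) (hρ0 : 0 < ρ)
    (hκ1 : 1 ≤ κ) (hκ2 : κ ≤ 2) (hκ : (k : ℝ) ≤ κ * (k - ρ)) (hC0 : 0 ≤ C) (hη : 0 ≤ η)
    (hηρ : 2 * (θ * C + 1) + 4 * C ≤ η * ρ) (n : ℕ) :
    ∀ D, y D ≠ 0 → Cen a b K ρ D → D.card ≤ n →
      ∑ Y ∈ D.powerset, y Y ≤ κ * pot a b k θ D + η * dg a b K D - (θ * C + 1 + 3 * C) := by
  classical
  have hk0' : 0 < k := by omega
  have hk0 : (0 : ℝ) < k := by exact_mod_cast hk0'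
  have hρk : ρ < k := by
    by_contra h
    push Not at h
    have : κ * (k - ρ) ≤ 0 := mul_nonpos_of_nonneg_of_nonpos (by linarith) (by linarith)
    linarith
  induction n with
  | zero =>
    intro D hD hDc hn
    exfalso
    have h1 : D = ∅ := card_eq_zero.1 (by omega)
    have h2 := hDc.1
    rw [h1] at h2
    have h3 : dg a b K ∅ = 0 := by unfold dg en; simp
    rw [h3] at h2
    linarith
  | succ n IH =>
    intro D hD hDc hn
    set A : ℝ := θ * C + 1 with hA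
    have hA0 : 0 ≤ A := by positivity
    -- the minimal central set with a thin window
    obtain ⟨B, hB, hBmin⟩ := exists_min_image
      (univ.filter fun X => y X ≠ 0 ∧ Cen a b K ρ X ∧ X ⊆ D ∧ dg a b K (D \ X) < ρ) card
      ⟨D, by
        rw [mem_filter]
        refine ⟨mem_univ _, hD, hDc, Subset.refl D, ?_⟩
        have h3 : dg a b K (D \ D) = 0 := by rw [sdiff_self]; unfold dg en; simp
        rw [h3]; exact hρ0⟩
    rw [mem_filter] at hB
    obtain ⟨-, hBy, hBc, hBD, hBρ⟩ := hB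
    set 𝒟 : Finset (Finset V) := univ.filter fun Y => y Y ≠ 0 ∧ Y ⊆ B ∧ Y ≠ B with h𝒟
    have h𝒟m : ∀ Y, Y ∈ 𝒟 ↔ y Y ≠ 0 ∧ Y ⊆ B ∧ Y ≠ B := fun Y => by
      rw [h𝒟, mem_filter]; simp
    obtain ⟨M, hM, hMd, hsum⟩ := decomp hk0' hOC hy hθ1 hκ2 hκ hρk (U := B) (𝒟 := 𝒟)
      (fun Y hY => ((h𝒟m Y).1 hY).1) (fun Y hY => ((h𝒟m Y).1 hY).2.1)
    set 𝒲 : Finset (Finset V) :=
      univ.filter fun Y => y Y ≠ 0 ∧ Y ⊆ D ∧ (B ⊆ Y ∨ Disjoint B Y) with h𝒲
    have hwin := window_sum hk hk3 hOC hgf hf hcon hy hθ1 hθ hBy hD hBD hBρ.le (𝒲 := 𝒲)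
      (fun Y hY => (mem_filter.1 hY).2)
    have htot : ∑ Y ∈ D.powerset, y Y ≤ ∑ Y ∈ 𝒲, y Y + ∑ Y ∈ 𝒟, y Y := by
      have h1 : ∑ Y ∈ D.powerset, y Y ≤ ∑ Y ∈ 𝒲 ∪ 𝒟, y Y := by
        rw [← sum_filter_ne_zero]
        refine sum_le_sum_of_subset_of_nonneg ?_ fun Y _ _ => hy.pack.nn Y
        intro Y hY
        rw [mem_filter, mem_powerset] at hY
        rw [mem_union, h𝒟m]
        rcases hy.lam B Y hBy hY.2 with h | h | h
        · exact Or.inl (mem_filter.2 ⟨mem_univ _, hY.2, hY.1, Or.inl h⟩)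
        · by_cases h2 : Y = B
          · exact Or.inl (mem_filter.2 ⟨mem_univ _, hY.2, hY.1, Or.inl (by rw [h2])⟩)
          · exact Or.inr ⟨hY.2, h, h2⟩
        · exact Or.inl (mem_filter.2 ⟨mem_univ _, hY.2, hY.1, Or.inr h⟩)
      refine h1.trans ?_
      have h2 := sum_union_inter (s₁ := 𝒲) (s₂ := 𝒟) (f := y)
      have h3 : 0 ≤ ∑ Y ∈ 𝒲 ∩ 𝒟, y Y := sum_nonneg fun Y _ => hy.pack.nn Y
      linarith
    have hMB : ∀ X ∈ M, X ⊆ B := fun X hX => ((h𝒟m X).1 (hM X hX).1).2.1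
    have hIH : ∀ X ∈ M, ∑ Y ∈ X.powerset, y Y ≤
        κ * pot a b k θ X + η * dg a b K X - (A + 3 * C) := by
      intro X hX
      have h1 := (h𝒟m X).1 (hM X hX).1
      refine IH X h1.1 (hM X hX).2 ?_
      have h2 : X.card < B.card := card_lt_card (h1.2.1.ssubset_of_ne h1.2.2)
      have h3 : B.card ≤ D.card := card_le_card hBD
      omega
    have hsub : M.biUnion id ⊆ B := by
      intro v hv
      rw [mem_biUnion] at hv
      obtain ⟨X, hX, hvX⟩ := hv
      exact hMB X hX hvX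
    have hBtr : ((cut a b (univ \ K) B).card : ℝ) / k ≤ C := by
      rw [div_le_iff₀ hk0]; exact hy.tr B hBy
    have hsumIH : ∑ X ∈ M, ∑ Y ∈ X.powerset, y Y ≤ κ * pot a b k θ (M.biUnion id) +
        η * dg a b K (M.biUnion id) - M.card * (A + 3 * C) := by
      refine (sum_le_sum hIH).trans (le_of_eq ?_)
      rw [sum_sub_distrib, sum_add_distrib, ← mul_sum, ← mul_sum, sum_const, nsmul_eq_mul,
        sum_biUnion_pot a b k θ M hMd, sum_biUnion_dg a b K M hMd]
    have hpotB : pot a b k θ (M.biUnion id) + pot a b k θ (B \ M.biUnion id) = pot a b k θ B := by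
      rw [← pot_union disjoint_sdiff, union_sdiff_of_subset hsub]
    have hpotD : pot a b k θ B + pot a b k θ (D \ B) = pot a b k θ D := by
      rw [← pot_union disjoint_sdiff, union_sdiff_of_subset hBD]
    have hpW : pot a b k θ (D \ B) ≤ κ * pot a b k θ (D \ B) := by
      have := pot_nn hk0' hOC hθ1 (D \ B)
      nlinarith
    have hκpot : κ * pot a b k θ D = κ * pot a b k θ (M.biUnion id) +
        κ * pot a b k θ (B \ M.biUnion id) + κ * pot a b k θ (D \ B) := by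
      rw [← hpotD, ← hpotB]; ring
    have hmain : ∑ Y ∈ D.powerset, y Y ≤ κ * pot a b k θ D + η * dg a b K (M.biUnion id) + A +
        C + M.card * C - M.card * (A + 3 * C) := by
      linarith
    have hdgM : dg a b K (M.biUnion id) ≤ dg a b K D := dg_mono (hsub.trans hBD)
    have hηM : η * dg a b K (M.biUnion id) ≤ η * dg a b K D := mul_le_mul_of_nonneg_left hdgM hη
    rcases Nat.lt_or_ge M.card 2 with hc | hc
    · rcases Nat.lt_or_ge M.card 1 with hc0 | hc1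
      · have h1 : M.card = 0 := by omega
        have h2 : M = ∅ := card_eq_zero.1 h1
        have h3 : dg a b K (M.biUnion id) = 0 := by
          rw [h2, biUnion_empty]; unfold dg en; simp
        rw [h1, h3] at hmain
        have h4 : η * ρ ≤ η * dg a b K D := mul_le_mul_of_nonneg_left hDc.1 hη
        push_cast at hmain
        linarith
      · have h1 : M.card = 1 := by omega
        obtain ⟨X, hX⟩ := card_eq_one.1 h1
        have hXM : X ∈ M := by rw [hX]; exact mem_singleton_self X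
        have hXm := (h𝒟m X).1 (hM X hXM).1
        have h3 : dg a b K (M.biUnion id) = dg a b K X := by
          rw [hX, singleton_biUnion]; rfl
        have hXD : X ⊆ D := hXm.2.1.trans hBD
        have h4 : ρ ≤ dg a b K (D \ X) := by
          by_contra h5
          push Not at h5
          have h6 := hBmin X (mem_filter.2 ⟨mem_univ _, hXm.1, (hM X hXM).2, hXD, h5⟩)
          have h7 : X.card < B.card := card_lt_card (hXm.2.1.ssubset_of_ne hXm.2.2)
          omega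
        have h5 : dg a b K X + dg a b K (D \ X) = dg a b K D := by
          rw [← dg_union disjoint_sdiff, union_sdiff_of_subset hXD]
        rw [h1, h3] at hmain
        have h6 : η * ρ ≤ η * dg a b K (D \ X) := mul_le_mul_of_nonneg_left h4 hη
        have h7 : η * dg a b K D = η * dg a b K X + η * dg a b K (D \ X) := by rw [← h5]; ring
        push_cast at hmain
        linarith
    · have h1 : (2 : ℝ) ≤ M.card := by exact_mod_cast hc
      have h2 : 0 ≤ ((M.card : ℝ) - 2) * A := mul_nonneg (by linarith) hA0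
      have h3 : 0 ≤ ((M.card : ℝ) - 2) * C := mul_nonneg (by linarith) hC0
      nlinarith

/-- **Bound for the whole packing.** -/
theorem total_bound {k g f : ℕ} (hk : Odd k) (hk3 : 3 ≤ k) {a b : E → V} (hOC : OC k a b)
    {K : Finset E} (hgf : k + 1 ≤ g + f) (hf : 1 ≤ f)
    (hcon : ∀ X, Odd (cut a b univ X).card → g ≤ (cut a b (univ \ K) X).card) {r0 : V}
    {C ρ θ κ η : ℝ} {y : Finset V → ℝ} (hy : Lam a b K r0 k C y)
    (hθ1 : 1 ≤ θ) (hθ : θ * (k - ρ - f) = k) (hρ0 : 0 < ρ)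
    (hκ1 : 1 ≤ κ) (hκ2 : κ ≤ 2) (hκ : (k : ℝ) ≤ κ * (k - ρ)) (hC0 : 0 ≤ C) (hη : 0 ≤ η)
    (hηρ : 2 * (θ * C + 1) + 4 * C ≤ η * ρ) :
    ∑ Y, y Y ≤ κ * pot a b k θ univ + 2 * η * K.card := by
  classical
  have hk0' : 0 < k := by omega
  have hk0 : (0 : ℝ) < k := by exact_mod_cast hk0'
  have hρk : ρ < k := by
    by_contra h
    push Not at h
    have : κ * (k - ρ) ≤ 0 := mul_nonpos_of_nonneg_of_nonpos (by linarith) (by linarith)
    linarith
  set 𝒟 : Finset (Finset V) := univ.filter fun Y => y Y ≠ 0 with h𝒟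
  have h𝒟m : ∀ Y, Y ∈ 𝒟 ↔ y Y ≠ 0 := fun Y => by rw [h𝒟, mem_filter]; simp
  obtain ⟨M, hM, hMd, hsum⟩ := decomp hk0' hOC hy hθ1 hκ2 hκ hρk (U := univ) (𝒟 := 𝒟)
    (fun Y hY => (h𝒟m Y).1 hY) (fun Y _ => subset_univ Y)
  have hcutu : ((cut a b (univ \ K) (univ : Finset V)).card : ℝ) = 0 := by
    have : cut a b (univ \ K) (univ : Finset V) = ∅ := by
      apply eq_empty_of_forall_notMem
      intro e he
      rw [mem_cut] at he
      simp at he
    rw [this]; simp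
  rw [hcutu, zero_div, add_zero] at hsum
  have hIH : ∀ X ∈ M, ∑ Y ∈ X.powerset, y Y ≤
      κ * pot a b k θ X + η * dg a b K X - (θ * C + 1 + 3 * C) := fun X hX =>
    central_bound hk hk3 hOC hgf hf hcon hy hθ1 hθ hρ0 hκ1 hκ2 hκ hC0 hη hηρ X.card X
      ((h𝒟m X).1 (hM X hX).1) (hM X hX).2 le_rfl
  have hsumIH : ∑ X ∈ M, ∑ Y ∈ X.powerset, y Y ≤ κ * pot a b k θ (M.biUnion id) +
      η * dg a b K (M.biUnion id) - M.card * (θ * C + 1 + 3 * C) := by
    refine (sum_le_sum hIH).trans (le_of_eq ?_)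
    rw [sum_sub_distrib, sum_add_distrib, ← mul_sum, ← mul_sum, sum_const, nsmul_eq_mul,
      sum_biUnion_pot a b k θ M hMd, sum_biUnion_dg a b K M hMd]
  have hpotB : pot a b k θ (M.biUnion id) + pot a b k θ (univ \ M.biUnion id) =
      pot a b k θ univ := by
    rw [← pot_union disjoint_sdiff, union_sdiff_of_subset (subset_univ _)]
  have hdgM : dg a b K (M.biUnion id) ≤ 2 * K.card := by
    rw [← dg_univ a b K]; exact dg_mono (subset_univ _)
  have hηM : η * dg a b K (M.biUnion id) ≤ 2 * η * K.card := by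
    calc η * dg a b K (M.biUnion id) ≤ η * (2 * K.card) := mul_le_mul_of_nonneg_left hdgM hη
      _ = _ := by ring
  have h1 : ∑ Y, y Y = ∑ Y ∈ 𝒟, y Y := by
    rw [h𝒟, sum_filter_ne_zero]
  have hA0 : 0 ≤ (M.card : ℝ) * (θ * C + 1 + 2 * C) := by positivity
  have hκpot : κ * pot a b k θ univ = κ * pot a b k θ (M.biUnion id) +
      κ * pot a b k θ (univ \ M.biUnion id) := by rw [← hpotB]; ring
  rw [h1, hκpot]
  nlinarith

end Pool.Agent.Lib.MP_d47134_co
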