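import Pool.Agent.Lib.MP_d47134_co.Final

/-!
# Parity joins that avoid a given set of edges: integral solutions
-/

set_option autoImplicit false
set_option linter.unusedSectionVars false

namespace Pool.Agent.Lib.MP_d47134_co

open Finset

variable {V E : Type} [Fintype V] [DecidableEq V] [Fintype E] [DecidableEq E]

/-- `J` is a parity join: it has the parity of the whole edge set on every cut. -/
def IsJoin (a b : E → V) (J : Finset E) : Prop :=
  ∀ X, (((cut a b J X).card : ℕ) : ZMod 2) = ((cut a b univ X).card : ZMod 2)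

lemma card_sigma {μ : E → ℕ} (F : Finset (Σ e : E, Fin (μ e))) (S : Finset E)
    (hF : ∀ z ∈ F, z.1 ∈ S) :
    F.card = ∑ e ∈ S, (F.filter fun z => z.1 = e).card :=
  card_eq_sum_card_fiberwise hF

lemma card_fib {μ : E → ℕ} (e : E) :
    ((univ : Finset (Σ e : E, Fin (μ e))).filter fun z => z.1 = e).card = μ e := by
  classical
  have h1 : ((univ : Finset (Σ e : E, Fin (μ e))).filter fun z => z.1 = e) =
      (univ : Finset (Fin (μ e))).image (fun i => (⟨e, i⟩ : Σ e : E, Fin (μ e))) := by
    ext z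
    simp only [mem_filter, mem_univ, true_and, mem_image]
    constructor
    · rintro rfl
      exact ⟨z.2, rfl⟩
    · rintro ⟨i, rfl⟩; rfl
  rw [h1, card_image_of_injective, card_univ, Fintype.card_fin]
  intro i j hij
  simpa using hij

theorem primal {a b : E → V} {K : Finset E} {x : E → ℝ} (hx : ∀ e, 0 ≤ x e)
    (hcov : ∀ X, Odd (cut a b univ X).card → 1 ≤ ∑ e ∈ cut a b (univ \ K) X, x e) :
    ∃ J, IsJoin a b J ∧ Disjoint J K ∧ (J.card : ℝ) ≤ ∑ e ∈ univ \ K, x e := by
  classical
  set S : ℝ := ∑ e ∈ univ \ K, x e with hS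
  have hS0 : 0 ≤ S := sum_nonneg fun e _ => hx e
  set m : ℕ := Fintype.card E with hm
  set δ : ℝ := ⌊S⌋₊ + 1 - S with hδ
  have hδ0 : 0 < δ := by
    have := Nat.lt_floor_add_one S
    linarith
  set c : ℝ := 3 * m + m * (S + 2) with hc
  have hc0 : 0 ≤ c := by positivity
  obtain ⟨q, hq⟩ := exists_nat_gt (c / δ)
  set Q : ℕ := 2 * q + 3 with hQ
  have hQodd : Odd Q := ⟨q + 1, by omega⟩
  have hQ3 : 3 ≤ Q := by omega
  have hQ0 : (0 : ℝ) < Q := by positivity
  have hQc : c < Q * δ := by
    rw [div_lt_iff₀ hδ0] at hq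
    have h1 : (q : ℝ) ≤ Q := by
      rw [hQ]; push_cast
      have : (0 : ℝ) ≤ q := by positivity
      linarith
    calc c < q * δ := hq
      _ ≤ Q * δ := mul_le_mul_of_nonneg_right h1 hδ0.le
  let μ : E → ℕ := fun e => if e ∈ K then 1 else 2 * ⌈Q * x e / 2⌉₊ + 1
  have hμodd : ∀ e, ((μ e : ℕ) : ZMod 2) = 1 := by
    intro e
    rw [← cast_odd]
    simp only [μ]
    split_ifs
    · exact odd_one
    · exact ⟨_, rfl⟩
  have hμlo : ∀ e, e ∉ K → Q * x e ≤ μ e := by
    intro e he
    simp only [μ, if_neg he]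
    push_cast
    have := Nat.le_ceil (Q * x e / 2)
    linarith
  have hμhi : ∀ e, e ∉ K → (μ e : ℝ) ≤ Q * x e + 3 := by
    intro e he
    simp only [μ, if_neg he]
    push_cast
    have := Nat.ceil_lt_add_one (a := Q * x e / 2) (by have := hx e; positivity)
    linarith
  let a' : (Σ e : E, Fin (μ e)) → V := fun z => a z.1
  let b' : (Σ e : E, Fin (μ e)) → V := fun z => b z.1
  have hcuteq : ∀ (F : Finset (Σ e : E, Fin (μ e))) X, (cut a' b' F X).card =
      ∑ e ∈ cut a b univ X, (F.filter fun z => z.1 = e).card := by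
    intro F X
    rw [card_sigma (cut a' b' F X) (cut a b univ X)]
    · refine sum_congr rfl fun e he => ?_
      congr 1
      ext z
      simp only [mem_filter, mem_cut, a', b']
      constructor
      · rintro ⟨⟨h1, _⟩, h2⟩; exact ⟨h1, h2⟩
      · rintro ⟨h1, rfl⟩; exact ⟨⟨h1, (mem_cut.1 he).2⟩, rfl⟩
    · intro z hz
      rw [mem_cut] at hz ⊢
      exact ⟨mem_univ _, hz.2⟩
  have hcutuniv : ∀ X, (cut a' b' univ X).card = ∑ e ∈ cut a b univ X, μ e := by
    intro X
    rw [hcuteq]
    exact sum_congr rfl fun e _ => card_fib e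
  have hpar : ∀ X, (((cut a' b' univ X).card : ℕ) : ZMod 2) = ((cut a b univ X).card : ZMod 2) := by
    intro X
    rw [hcutuniv]
    push_cast
    rw [sum_congr rfl fun e _ => hμodd e]
    simp
  have hOC : OC Q a' b' := by
    intro X hX
    have hX' : Odd (cut a b univ X).card := by
      rw [cast_odd] at hX ⊢
      rw [← hpar]; exact hX
    have h1 := hcov X hX'
    have h2 : (Q : ℝ) ≤ ∑ e ∈ cut a b univ X, (μ e : ℝ) := by
      calc (Q : ℝ) = Q * 1 := by ring
        _ ≤ Q * ∑ e ∈ cut a b (univ \ K) X, x e := mul_le_mul_of_nonneg_left h1 hQ0.le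
        _ = ∑ e ∈ cut a b (univ \ K) X, Q * x e := by rw [mul_sum]
        _ ≤ ∑ e ∈ cut a b (univ \ K) X, (μ e : ℝ) := by
            refine sum_le_sum fun e he => hμlo e ?_
            rw [mem_cut, mem_sdiff] at he
            exact he.1.2
        _ ≤ ∑ e ∈ cut a b univ X, (μ e : ℝ) := by
            refine sum_le_sum_of_subset_of_nonneg ?_ fun _ _ _ => by positivity
            intro e he
            rw [mem_cut] at he ⊢
            exact ⟨mem_univ _, he.2⟩
    rw [hcutuniv]
    exact_mod_cast h2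
  let w' : (Σ e : E, Fin (μ e)) → ℝ := fun z => if z.1 ∈ K then S + 2 else 1
  have hw1 : ∀ z, 1 ≤ w' z := by
    intro z
    simp only [w']
    split_ifs <;> linarith
  obtain ⟨J', hJ'⟩ := exists_sol hQodd hQ3 _ a' b' w' hOC (fun z => zero_le_one.trans (hw1 z))
    (Nat.lt_succ_self _)
  have htot : ∑ z, w' z ≤ Q * S + c := by
    rw [Fintype.sum_sigma]
    have h1 : ∀ e, ∑ i : Fin (μ e), w' ⟨e, i⟩ ≤
        (if e ∈ univ \ K then Q * x e else 0) + (3 + (S + 2)) := by
      intro e
      have h2 : ∑ i : Fin (μ e), w' ⟨e, i⟩ = μ e * (if e ∈ K then S + 2 else 1) := by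
        have h3 : ∀ i : Fin (μ e), w' ⟨e, i⟩ = (if e ∈ K then S + 2 else 1) := fun i => rfl
        rw [sum_congr rfl fun i _ => h3 i, sum_const, card_univ, Fintype.card_fin, nsmul_eq_mul]
      rw [h2]
      by_cases he : e ∈ K
      · have : μ e = 1 := by simp only [μ, if_pos he]
        rw [this, if_pos he, if_neg (by simp [he])]
        push_cast
        linarith
      · rw [if_neg he, if_pos (by simp [he]), mul_one]
        have := hμhi e he
        linarith
    calc ∑ e, ∑ i : Fin (μ e), w' ⟨e, i⟩ ≤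
        ∑ e, ((if e ∈ univ \ K then Q * x e else 0) + (3 + (S + 2))) :=
          sum_le_sum fun e _ => h1 e
      _ = Q * S + c := by
          rw [sum_add_distrib, sum_const, card_univ, nsmul_eq_mul, ← sum_filter, hS, mul_sum]
          congr 1
          · refine sum_congr ?_ fun _ _ => rfl
            ext e; simp
          · rw [hc, hm]; ring
  have hJw : ∑ z ∈ J', w' z < ⌊S⌋₊ + 1 := by
    have h1 := hJ'.wt
    have h2 : (Q : ℝ) * ∑ z ∈ J', w' z < Q * (⌊S⌋₊ + 1) := by
      calc (Q : ℝ) * ∑ z ∈ J', w' z ≤ ∑ z, w' z := h1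
        _ ≤ Q * S + c := htot
        _ < Q * S + Q * δ := by linarith
        _ = Q * (⌊S⌋₊ + 1) := by rw [hδ]; ring
    exact lt_of_mul_lt_mul_left h2 hQ0.le
  let J : Finset E := univ.filter fun e => Odd (J'.filter fun z => z.1 = e).card
  have hfl : (⌊S⌋₊ : ℝ) ≤ S := Nat.floor_le hS0
  have hJcard : J.card ≤ J'.card := by
    rw [card_sigma J' univ fun _ _ => mem_univ _, card_eq_sum_ones]
    calc ∑ e ∈ J, 1 ≤ ∑ e ∈ J, (J'.filter fun z => z.1 = e).card := by
          refine sum_le_sum fun e he => ?_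
          exact (mem_filter.1 he).2.pos
      _ ≤ _ := sum_le_sum_of_subset (subset_univ _)
  refine ⟨J, ?_, ?_, ?_⟩
  · intro X
    rw [← hpar, ← hJ'.join, hcuteq]
    have h1 : (cut a b J X).card = ∑ e ∈ cut a b univ X, if e ∈ J then 1 else 0 := by
      rw [← card_filter]
      congr 1
      ext e
      simp only [mem_cut, mem_filter, mem_univ, true_and]
      tauto
    rw [h1]
    push_cast
    refine sum_congr rfl fun e _ => ?_
    by_cases h2 : Odd (J'.filter fun z => z.1 = e).card
    · rw [if_pos (by simp only [J, mem_filter, mem_univ, true_and]; exact h2), cast_odd.1 h2]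
    · rw [if_neg (by simp only [J, mem_filter, mem_univ, true_and]; exact h2)]
      rw [Nat.not_odd_iff_even] at h2
      exact (ZMod.natCast_eq_zero_iff_even.2 h2).symm
  · rw [disjoint_left]
    intro e he heK
    have h1 : 0 < (J'.filter fun z => z.1 = e).card := (mem_filter.1 he).2.pos
    obtain ⟨z, hz⟩ := card_pos.1 h1
    rw [mem_filter] at hz
    have h2 : w' z ≤ ∑ z ∈ J', w' z :=
      single_le_sum (fun z _ => zero_le_one.trans (hw1 z)) hz.1
    have h3 : w' z = S + 2 := by
      simp only [w']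
      rw [hz.2, if_pos heK]
    linarith
  · have h1 : (J'.card : ℝ) ≤ ∑ z ∈ J', w' z := by
      rw [card_eq_sum_ones]
      push_cast
      exact sum_le_sum fun z _ => hw1 z
    have h2 : (J.card : ℝ) < ⌊S⌋₊ + 1 := by
      have : (J.card : ℝ) ≤ J'.card := by exact_mod_cast hJcard
      linarith
    have h3 : J.card ≤ ⌊S⌋₊ := by
      have : J.card < ⌊S⌋₊ + 1 := by exact_mod_cast h2
      omega
    have h4 : (J.card : ℝ) ≤ ⌊S⌋₊ := by exact_mod_cast h3
    linarith

end Pool.Agent.Lib.MP_d47134_co
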